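import Pool.Agent.H9x.SN.Sys

/-!
# The block sensitivity of the questions
-/

set_option autoImplicit false
set_option linter.unusedSectionVars false

namespace Pool.Agent.H9x.SN

open Finset H568R2 Pool.Agent.H676 Pool.Agent.NPC Pool.Agent.H622R2 Pool.Agent.H620R2.Gauge
  Pool.Agent.H622R2.Exp Pool.Agent.TH678.ETH Pool.Agent.TH678.SETH Pool.Agent.TH678.RS
  Pool.Agent.H9x.Q

open Pool.Agent.H9x.RT (ll lev HZ HZ_iff)
open Pool.Agent.H9x.SP (Sys Dt J orc base orc_on orc_off orc_free orc_loc tv tv_congr tv_true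
  tv_false tv_iff)

/-- the error is bounded at every input -/
def Bnd (F : QFamily) (A : Oracle) : Prop := ∀ x, 2 / 3 ≤ F.acc A x ∨ F.acc A x ≤ 1 / 3

variable {I : Type} [Fintype I] [DecidableEq I]
variable {ℓ : ℕ → ℕ} {qf : ℕ → QFamily} {S R : ℕ → Polynomial ℕ}

/-- families of data in which a block at the level `s` varies -/
structure FamN (ℓ : ℕ → ℕ) (qf : ℕ → QFamily) (S : ℕ → Polynomial ℕ) (s T : ℕ)
    (F : (I → Bool) → Dt (sysN ℓ qf S).K) : Prop where
  low : ∀ c, lev S c < s → ∀ z z', (F z).bl c = (F z').bl c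
  fr : ∀ z z', (F z).fr = (F z').fr
  blk : ∀ c : ℕ × List Bool, s ≤ lev S c → lev S c ≤ T →
    (∀ w, (∃ v, ∀ z t, (F z).bl c t w = v) ∨ ∃ i, ∀ z t, (F z).bl c t w = z i) ∨
    ((∀ z z', (F z).bl c = (F z').bl c) ∧ (lev S c = s ∨ c.1 % 2 = 0 ∨
      (∀ z, (F z).bl c true = (F z).bl c false) ∨
      ¬ c.1 % 2 = 0 ∧ ∀ z, Bnd (qf (c.1 / 2)) (er (orc (sysN ℓ qf S) (F z)))))

open Classical in
theorem bs_tv (hK : Kn qf S R) {F : (I → Bool) → Dt (sysN ℓ qf S).K} {c : ℕ × List Bool}
    (hc : ¬ c.1 % 2 = 0) (hb : ∀ z, Bnd (qf (c.1 / 2)) (er (orc (sysN ℓ qf S) (F z))))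
    (ih : ∀ y : List Bool, y.length ≤ lev S c →
      Bs (y.length + 1) (fun z => er (orc (sysN ℓ qf S) (F z)) y)) :
    Bs (lev S c) (fun z => tv (sysN ℓ qf S) c (orc (sysN ℓ qf S) (F z))) := by
  intro z P hP hs
  set r : ℕ := (R (c.1 / 2)).eval (strip c.2).length with hr
  have hrn : r ≤ (R (c.1 / 2)).eval c.2.length := eval_mono _ (strip_len _)
  obtain ⟨ho1, _, ho3⟩ := hK.od c.1 c.2.length hc
  have hrl : r ≤ lev S c := hrn.trans ho3
  set C := (qf (c.1 / 2)).circ (strip c.2).length with hC
  have hCl : C.length ≤ r := hK.len _ _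
  have h1 := sum_prob_diff (ι := {B // B ∈ P}) (er (orc (sysN ℓ qf S) (F z)))
    (fun B => er (orc (sysN ℓ qf S) (F (fl B.1 z)))) ((r : ℝ) + 1) r (by positivity) (fun y hy => by
      have h2 := ih y (hy.trans hrl) z (P.filter fun B => er (orc (sysN ℓ qf S) (F (fl B z))) y ≠
        er (orc (sysN ℓ qf S) (F z)) y) (hP.subset (by
          intro B hB
          exact mem_of_mem_filter B hB)) fun B hB => (mem_filter.1 hB).2
      have h3 : (univ.filter fun B : {B // B ∈ P} => er (orc (sysN ℓ qf S) (F (fl B.1 z))) y ≠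
          er (orc (sysN ℓ qf S) (F z)) y).card ≤ (P.filter fun B =>
          er (orc (sysN ℓ qf S) (F (fl B z))) y ≠ er (orc (sysN ℓ qf S) (F z)) y).card := by
        refine card_le_card_of_injOn Subtype.val (fun B hB => ?_) Subtype.val_injective.injOn
        rw [mem_coe, mem_filter] at hB ⊢
        exact ⟨B.2, hB.2⟩
      have h4 : ((univ.filter fun B : {B // B ∈ P} => er (orc (sysN ℓ qf S) (F (fl B.1 z))) y ≠
          er (orc (sysN ℓ qf S) (F z)) y).card : ℝ) ≤ ((y.length + 1 : ℕ) : ℝ) := by
        exact_mod_cast h3.trans h2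
      have h5 : ((y.length + 1 : ℕ) : ℝ) ≤ (r : ℝ) + 1 := by
        push_cast
        have : (y.length : ℝ) ≤ r := by exact_mod_cast hy
        linarith
      exact h4.trans h5) C (hK.sh _ _) ((strip c.2).length + 1 +
        (qf (c.1 / 2)).anc.eval (strip c.2).length) (strip c.2)
  have h2 : ∀ B : {B // B ∈ P}, (1 : ℝ) / 9 ≤
      (prob (er (orc (sysN ℓ qf S) (F (fl B.1 z)))) C ((strip c.2).length + 1 +
        (qf (c.1 / 2)).anc.eval (strip c.2).length) (strip c.2) -
      prob (er (orc (sysN ℓ qf S) (F z))) C ((strip c.2).length + 1 +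
        (qf (c.1 / 2)).anc.eval (strip c.2).length) (strip c.2)) ^ 2 := by
    intro B
    have h3 := hs B.1 B.2
    have h4 := tv_odd (ℓ := ℓ) hK (orc (sysN ℓ qf S) (F z)) hc
    have h5 := tv_odd (ℓ := ℓ) hK (orc (sysN ℓ qf S) (F (fl B.1 z))) hc
    have h6 := hb z (strip c.2)
    have h7 := hb (fl B.1 z) (strip c.2)
    have e1 : (qf (c.1 / 2)).acc (er (orc (sysN ℓ qf S) (F z))) (strip c.2) =
      prob (er (orc (sysN ℓ qf S) (F z))) C ((strip c.2).length + 1 +
        (qf (c.1 / 2)).anc.eval (strip c.2).length) (strip c.2) := rfl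
    have e2 : (qf (c.1 / 2)).acc (er (orc (sysN ℓ qf S) (F (fl B.1 z)))) (strip c.2) =
      prob (er (orc (sysN ℓ qf S) (F (fl B.1 z)))) C ((strip c.2).length + 1 +
        (qf (c.1 / 2)).anc.eval (strip c.2).length) (strip c.2) := rfl
    rw [e1] at h4 h6
    rw [e2] at h5 h7
    set a := prob (er (orc (sysN ℓ qf S) (F z))) C ((strip c.2).length + 1 +
        (qf (c.1 / 2)).anc.eval (strip c.2).length) (strip c.2)
    set b := prob (er (orc (sysN ℓ qf S) (F (fl B.1 z)))) C ((strip c.2).length + 1 +
        (qf (c.1 / 2)).anc.eval (strip c.2).length) (strip c.2)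
    have h8 : ¬ ((1 / 2 < a) ↔ (1 / 2 < b)) := by
      intro h
      apply h3
      rw [Bool.eq_iff_iff]
      exact h5.trans (h.symm.trans h4.symm)
    rcases h6 with h6 | h6 <;> rcases h7 with h7 | h7
    · exact absurd ⟨fun _ => by linarith, fun _ => by linarith⟩ h8
    · nlinarith
    · nlinarith
    · exact absurd ⟨fun _ => by linarith, fun _ => by linarith⟩ h8
  have h3 : (P.card : ℝ) * (1 / 9) ≤ 16 * (C.length : ℝ) ^ 2 * ((r : ℝ) + 1) := by
    refine le_trans (le_trans (le_of_eq ?_) (sum_le_sum fun B (_ : B ∈ univ) => h2 B)) h1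
    rw [sum_const, nsmul_eq_mul, card_univ, Fintype.card_coe]
  have h4 : (P.card : ℝ) ≤ ((144 * r ^ 2 * (r + 1) : ℕ) : ℝ) := by
    push_cast
    have h5 : (C.length : ℝ) ^ 2 ≤ (r : ℝ) ^ 2 := by
      refine pow_le_pow_left₀ (Nat.cast_nonneg _) ?_ 2
      exact_mod_cast hCl
    have h6 : (0 : ℝ) ≤ (r : ℝ) + 1 := by positivity
    nlinarith [mul_le_mul_of_nonneg_right h5 h6]
  have h5 : P.card ≤ 144 * r ^ 2 * (r + 1) := by exact_mod_cast h4
  refine h5.trans (le_trans ?_ ho1)
  exact Nat.mul_le_mul (Nat.mul_le_mul_left _ (Nat.pow_le_pow_left hrn 2))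
    (Nat.add_le_add_right hrn 1)

theorem er_off {A : Oracle} {q : List Bool} (h : ∀ u, q ≠ true :: u) : er A q = A q := by
  rcases q with _ | ⟨c, u⟩
  · rfl
  · cases c
    · rfl
    · exact absurd rfl (h u)

/-- **The block sensitivity of the questions.** -/
theorem FamN.bs (hK : Kn qf S R) {s T : ℕ} {F : (I → Bool) → Dt (sysN ℓ qf S).K}
    (hF : FamN ℓ qf S s T F) : ∀ (m : ℕ) (q : List Bool), q.length = m → m ≤ T →
      Bs (q.length + 1) (fun z => er (orc (sysN ℓ qf S) (F z)) q) := by
  intro m
  induction m using Nat.strong_induction_on with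
  | _ m ih =>
    intro q hq hqT
    by_cases hfree : ∃ u, q = true :: u
    · obtain ⟨u, rfl⟩ := hfree
      exact Bs.const fun z z' => rfl
    · push Not at hfree
      have her : (fun z => er (orc (sysN ℓ qf S) (F z)) q) = fun z => orc (sysN ℓ qf S) (F z) q :=
        funext fun z => er_off hfree
      rw [her]
      by_cases hp : ∃ c w, (sysN ℓ qf S).ok c w ∧ q = (sysN ℓ qf S).adr c w
      · obtain ⟨c, w, hok, rfl⟩ := hp
        have hlt : lev S c < m := by
          rw [← hq]
          exact (sysN ℓ qf S).lt c w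
        have hon : ∀ z, orc (sysN ℓ qf S) (F z) ((sysN ℓ qf S).adr c w) =
            (F z).bl c (tv (sysN ℓ qf S) c (orc (sysN ℓ qf S) (F z))) w := fun z => orc_on _ hok
        have hcst : lev S c ≤ s → (∀ z z', (F z).bl c = (F z').bl c) →
            Bs (((sysN ℓ qf S).adr c w).length + 1)
              (fun z => orc (sysN ℓ qf S) (F z) ((sysN ℓ qf S).adr c w)) := by
          intro h1 h2
          refine Bs.const fun z z' => ?_
          rw [hon, hon, h2 z z']
          have h3 : tv (sysN ℓ qf S) c (orc (sysN ℓ qf S) (F z)) =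
              tv (sysN ℓ qf S) c (orc (sysN ℓ qf S) (F z')) :=
            tv_congr fun y hy => orc_loc (n := s) (fun c' hc' => hF.low c' hc' z z')
              (fun u _ => by rw [hF.fr z z']) _ y rfl (le_trans hy h1)
          rw [h3]
        by_cases hls : lev S c < s
        · exact hcst hls.le fun z z' => hF.low c hls z z'
        · rcases hF.blk c (not_lt.1 hls) (hlt.le.trans hqT) with h1 | ⟨h1, h2⟩
          · rcases h1 w with ⟨v, hv⟩ | ⟨i, hi⟩
            · refine Bs.const fun z z' => ?_
              rw [hon, hon, hv, hv]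
            · have h2 : (fun z => orc (sysN ℓ qf S) (F z) ((sysN ℓ qf S).adr c w)) =
                  fun z => z i := by
                funext z
                rw [hon, hi]
              rw [h2]
              exact (Bs.coord i).mono (by omega)
          · rcases h2 with h2 | h2 | h2 | ⟨h2, h3⟩
            · exact hcst h2.le h1
            · refine Bs.const fun z z' => ?_
              rw [hon, hon, h1 z z', tv_even hK _ h2, tv_even hK _ h2, hF.fr z z']
            · refine Bs.const fun z z' => ?_
              have h3 : ∀ z t, (F z).bl c t = (F z).bl c true := by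
                intro z t
                cases t
                · exact (h2 z).symm
                · rfl
              rw [hon, hon, h3 z, h3 z', h1 z z']
            · have h4 := bs_tv hK h2 h3 fun y hy => ih y.length (lt_of_le_of_lt hy hlt) y rfl
                (by omega)
              have h5 : (fun z => orc (sysN ℓ qf S) (F z) ((sysN ℓ qf S).adr c w)) =
                  fun z => (fun t => (F (fun _ => false)).bl c t w)
                    (tv (sysN ℓ qf S) c (orc (sysN ℓ qf S) (F z))) := by
                funext z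
                rw [hon, h1 z (fun _ => false)]
              rw [h5]
              refine (h4.comp (fun t => (F (fun _ => false)).bl c t w)).mono ?_
              have h6 : lev S c ≤ ((sysN ℓ qf S).adr c w).length := by omega
              exact h6.trans (Nat.le_succ _)
      · push Not at hp
        refine Bs.const fun z z' => ?_
        rw [orc_off _ hp, orc_off _ hp]
        rcases q with _ | ⟨c₁, u⟩
        · rfl
        · cases c₁
          · rfl
          · exact absurd rfl (hfree u)

theorem FamN.dtr (hK : Kn qf S R) {s T : ℕ} {F : (I → Bool) → Dt (sysN ℓ qf S).K}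
    (hF : FamN ℓ qf S s T F) {q : List Bool} (hq : q.length ≤ T) :
    DTr ((T + 1) * (T + 1) * ((T + 1) * (T + 1))) (fun z => er (orc (sysN ℓ qf S) (F z)) q) :=
  ((hF.bs hK q.length q rfl hq).mono (by omega)).dtr

end Pool.Agent.H9x.SN
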