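import Pool.Agent.H676.DT
import Pool.Agent.H9x.RU.Mach

/-!
# Block sensitivity, certificates and decision trees
-/

set_option autoImplicit false
set_option linter.unusedSectionVars false

namespace Pool.Agent.H9x.SN

open Finset H568R2 Pool.Agent.H676

variable {I : Type} [Fintype I] [DecidableEq I]

/-- the coordinates in `B` are flipped -/
def fl (B : Finset I) (z : I → Bool) : I → Bool := fun i => if i ∈ B then !z i else z i

/-- the block sensitivity is at most `b` -/
def Bs (b : ℕ) (f : (I → Bool) → Bool) : Prop :=
  ∀ (z : I → Bool) (P : Finset (Finset I)), (P : Set (Finset I)).PairwiseDisjoint id →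
    (∀ B ∈ P, f (fl B z) ≠ f z) → P.card ≤ b

theorem Bs.mono {b b' : ℕ} {f : (I → Bool) → Bool} (h : Bs b f) (hb : b ≤ b') : Bs b' f :=
  fun z P h1 h2 => (h z P h1 h2).trans hb

theorem Bs.const {b : ℕ} {f : (I → Bool) → Bool} (h : ∀ z z', f z = f z') : Bs b f := by
  intro z P _ h2
  rcases P.eq_empty_or_nonempty with h3 | ⟨B, hB⟩
  · rw [h3, card_empty]
    exact Nat.zero_le _
  · exact absurd (h _ _) (h2 B hB)

theorem Bs.coord (i : I) : Bs 1 (fun z : I → Bool => z i) := by
  intro z P h1 h2
  rw [card_le_one]
  intro B hB B' hB'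
  have key : ∀ B ∈ P, i ∈ B := by
    intro B hB
    by_contra h
    exact h2 B hB (by show (if i ∈ B then !z i else z i) = z i; rw [if_neg h])
  by_contra hne
  have h3 := h1 hB hB' hne
  exact Finset.disjoint_left.1 h3 (key B hB) (key B' hB')

theorem Bs.comp {b : ℕ} {f : (I → Bool) → Bool} (g : Bool → Bool) (h : Bs b f) :
    Bs b (fun z => g (f z)) :=
  fun z P h1 h2 => h z P h1 fun B hB he => h2 B hB (by show g (f (fl B z)) = g (f z); rw [he])

theorem fl_empty (z : I → Bool) : fl ∅ z = z := by
  funext i
  simp [fl]

theorem exists_min (f : (I → Bool) → Bool) (z : I → Bool) (B : Finset I) (h : f (fl B z) ≠ f z) :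
    ∃ B' ⊆ B, f (fl B' z) ≠ f z ∧ ∀ B'' ⊂ B', f (fl B'' z) = f z := by
  induction B using Finset.strongInduction with
  | _ B ih =>
    by_cases h1 : ∀ B'' ⊂ B, f (fl B'' z) = f z
    · exact ⟨B, subset_rfl, h, h1⟩
    · push Not at h1
      obtain ⟨B'', h2, h3⟩ := h1
      obtain ⟨B', h4, h5, h6⟩ := ih B'' h2 h3
      exact ⟨B', h4.trans h2.subset, h5, h6⟩

theorem card_min {b : ℕ} {f : (I → Bool) → Bool} (hf : Bs b f) {z : I → Bool} {B : Finset I}
    (h : f (fl B z) ≠ f z) (hm : ∀ B'' ⊂ B, f (fl B'' z) = f z) : B.card ≤ b := by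
  have h1 := hf (fl B z) (B.image fun i => {i}) (by
    intro C hC C' hC' hne
    rw [mem_coe, mem_image] at hC hC'
    obtain ⟨i, _, rfl⟩ := hC
    obtain ⟨j, _, rfl⟩ := hC'
    show Disjoint ({i} : Finset I) {j}
    rw [disjoint_singleton]
    rintro rfl
    exact hne rfl) (by
    intro C hC
    rw [mem_image] at hC
    obtain ⟨i, hi, rfl⟩ := hC
    have h2 : fl {i} (fl B z) = fl (B.erase i) z := by
      funext j
      unfold fl
      by_cases hj : j = i
      · subst hj
        simp [hi]
      · simp [hj]
    rw [h2, hm _ (erase_ssubset hi)]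
    exact h.symm)
  rwa [card_image_of_injective _ singleton_injective] at h1

/-- **Block sensitivity bounds certificates.** -/
theorem Bs.cert {b : ℕ} {f : (I → Bool) → Bool} (hf : Bs b f) (v : Bool) : Cert (b * b) v f := by
  classical
  intro z hz
  set QQ : Finset (Finset (Finset I)) := univ.filter fun P =>
    (P : Set (Finset I)).PairwiseDisjoint id ∧
      ∀ B ∈ P, f (fl B z) ≠ f z ∧ ∀ B'' ⊂ B, f (fl B'' z) = f z with hQQ
  have hne : QQ.Nonempty := ⟨∅, by
    rw [hQQ, mem_filter]
    exact ⟨mem_univ _, by simp, by simp⟩⟩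
  obtain ⟨P, hP, hmax⟩ := exists_max_image QQ card hne
  rw [hQQ, mem_filter] at hP
  obtain ⟨_, hP1, hP2⟩ := hP
  refine ⟨P.biUnion id, ?_, fun y hy => ?_⟩
  · refine (card_biUnion_le_card_mul P id b fun B hB => card_min hf (hP2 B hB).1 (hP2 B hB).2).trans
      (Nat.mul_le_mul_right _ (hf z P hP1 fun B hB => (hP2 B hB).1))
  · by_contra hcon
    set D : Finset I := univ.filter fun i => y i ≠ z i with hD
    have h1 : fl D z = y := by
      funext i
      unfold fl
      by_cases h : y i = z i
      · rw [if_neg (by rw [hD, mem_filter]; simp [h]), h]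
      · rw [if_pos (by rw [hD, mem_filter]; exact ⟨mem_univ _, h⟩)]
        cases hy : y i <;> cases hz : z i <;> simp_all
    obtain ⟨B', h2, h3, h4⟩ := exists_min f z D (by rw [h1, hz]; exact hcon)
    have h5 : ∀ B ∈ P, Disjoint B' B := by
      intro B hB
      rw [Finset.disjoint_left]
      intro i hi hi'
      have h6 := h2 hi
      rw [hD, mem_filter] at h6
      exact h6.2 (hy i (mem_biUnion.2 ⟨B, hB, hi'⟩))
    have h6 : B' ∉ P := by
      intro h
      have h7 := h5 B' h
      rw [disjoint_self] at h7
      apply h3
      have h8 : B' = ∅ := h7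
      rw [h8, fl_empty]
    have h7 := hmax (insert B' P) (by
      rw [hQQ, mem_filter]
      refine ⟨mem_univ _, ?_, ?_⟩
      · rw [coe_insert]
        exact hP1.insert fun B hB _ => h5 B hB
      · intro B hB
        rcases mem_insert.1 hB with rfl | hB
        · exact ⟨h3, h4⟩
        · exact hP2 B hB)
    rw [card_insert_of_notMem h6] at h7
    omega

theorem dtr_of_cert {c : ℕ} : ∀ (r : ℕ) {f : (I → Bool) → Bool}, Cert c true f → Cert r false f →
    DTr (c * r) f := by
  intro r
  induction r with
  | zero =>
    intro f _ h0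
    by_cases h : ∃ x, f x = false
    · obtain ⟨x, hx⟩ := h
      obtain ⟨A, hA, hy⟩ := h0 x hx
      have hA0 : A = ∅ := by rwa [Nat.le_zero, card_eq_zero] at hA
      subst hA0
      exact ⟨false, fun y => hy y (by simp)⟩
    · push Not at h
      exact ⟨true, fun y => by simpa using h y⟩
  | succ r ih =>
    intro f h1 h0
    by_cases h : ∃ x, f x = true
    · obtain ⟨x, hx⟩ := h
      obtain ⟨A, hA, hy⟩ := h1 x hx
      have key : DTr (A.card + c * r) f := by
        refine DTr.query A fun π => ih (fun x' hx' => ?_) fun x' hx' => ?_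
        · obtain ⟨B, hB, hB'⟩ := h1 (ow A π x') hx'
          refine ⟨B, hB, fun y' hy' => hB' _ fun i hi => ?_⟩
          unfold ow
          split_ifs
          · rfl
          · exact hy' i hi
        · obtain ⟨B, hB, hB'⟩ := h0 (ow A π x') hx'
          refine ⟨B \ A, ?_, fun y' hy' => hB' _ fun i hi => ?_⟩
          · have h2 : (B ∩ A).Nonempty := by
              rw [nonempty_iff_ne_empty]
              intro h3
              have h4 : ∀ i ∈ B, i ∉ A := fun i hi hi' => by
                have : i ∈ B ∩ A := mem_inter.2 ⟨hi, hi'⟩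
                rw [h3] at this
                exact absurd this (notMem_empty _)
              have h5 := hB' (ow A x (ow A π x')) fun i hi => by
                show (if i ∈ A then x i else ow A π x' i) = _
                rw [if_neg (h4 i hi)]
              have h6 := hy (ow A x (ow A π x')) fun i hi => by
                show (if i ∈ A then x i else ow A π x' i) = _
                rw [if_pos hi]
              rw [h6] at h5
              cases h5
            have h3 := card_sdiff_add_card_inter B A
            have h4 := h2.card_pos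
            omega
          · unfold ow
            split_ifs with h5
            · rfl
            · exact hy' i (mem_sdiff.2 ⟨hi, h5⟩)
      refine key.mono ?_
      rw [Nat.mul_succ]
      omega
    · push Not at h
      exact DTr.const ⟨false, fun y => by simpa using h y⟩

/-- **Block sensitivity bounds the depth of decision trees.** -/
theorem Bs.dtr {b : ℕ} {f : (I → Bool) → Bool} (hf : Bs b f) : DTr (b * b * (b * b)) f :=
  dtr_of_cert (b * b) (hf.cert true) (hf.cert false)

/-! ### Algorithms which ask shallow decision trees -/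

open Pool.Agent.H620R2.Gauge Pool.Agent.NPC Pool.Agent.H622R2.Exp

theorem dtr_bind {n : ℕ} : ∀ (d : ℕ) {g : (I → Bool) → Bool}, DTr d g →
    ∀ {f : Bool → (I → Bool) → Bool}, (∀ v, DTr n (f v)) → DTr (d + n) (fun z => f (g z) z) := by
  intro d
  induction d with
  | zero =>
    rintro g ⟨c, hc⟩ f hf
    have : (fun z => f (g z) z) = f c := funext fun z => by rw [hc]
    rw [this]
    exact (hf c).mono (by omega)
  | succ d ih =>
    rintro g (⟨c, hc⟩ | ⟨i, hi⟩) f hf
    · have : (fun z => f (g z) z) = f c := funext fun z => by rw [hc]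
      rw [this]
      exact (hf c).mono (by omega)
    · rw [Nat.add_right_comm]
      exact Or.inr ⟨i, fun b => ih (hi b) (f := fun v z => f v (Function.update z i b))
        fun v => DTr_update (hf v) i b⟩

/-- **Algorithms which ask shallow decision trees are shallow decision trees.** -/
theorem dtr_runD {T d : ℕ} {G : (I → Bool) → Oracle}
    (hG : ∀ q : List Bool, q.length ≤ T → DTr d (fun z => G z q)) (M : Alg) (y : List Bool) :
    ∀ (n : ℕ) (acc : List Bool),
      DTr (n * d) (fun z : I → Bool => decide (M.run (CC.cut T (G z)) y n acc = some [true])) := by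
  intro n
  induction n with
  | zero =>
    intro acc
    rw [Nat.zero_mul]
    exact ⟨false, fun a => by simp [Alg.run]⟩
  | succ n ih =>
    intro acc
    rcases hq : M.D (pairBits y acc) with _ | ⟨c, q⟩
    · exact DTr.const ⟨false, fun a => by simp [Alg.run, hq]⟩
    · cases c with
      | true => exact DTr.const ⟨decide (q = [true]), fun a => by simp [Alg.run, hq]⟩
      | false =>
        have h1 : DTr d (fun z => CC.cut T (G z) q) := by
          by_cases hN : q.length ≤ T
          · refine (congrArg (DTr d) (funext fun z => ?_)).mp (hG q hN)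
            unfold CC.cut
            rw [if_pos hN]
          · refine DTr.const ⟨false, fun z => ?_⟩
            unfold CC.cut
            rw [if_neg hN]
        have h2 := dtr_bind d h1 (f := fun v z => decide (M.run (CC.cut T (G z)) y n (acc ++ [v]) =
          some [true])) fun v => ih (acc ++ [v])
        rw [Nat.succ_mul, Nat.add_comm (n * d) d]
        refine (congrArg (DTr (d + n * d)) (funext fun z => ?_)).mp h2
        simp only [Alg.run, hq]

end Pool.Agent.H9x.SN
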