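import Pool.Agent.H9x.SP.One
import Pool.Agent.H9x.SN.Bs

/-!
# Variants of the hybrid argument and of the fooling of quantifiers
-/

set_option autoImplicit false
set_option linter.unusedSectionVars false

namespace Pool.Agent.H9x.SN

open Finset H568R2 Pool.Agent.H676 Pool.Agent.H620R2.Gauge Pool.Agent.NPC Pool.Agent.H591R3.PHG

open Pool.Agent.H9x.RT (mkp EE EC EC_le EC_sum EC_upd EC_sub)
open Pool.Agent.H9x.SP (Blk Fools)

section Hyb

variable {K : Type*} [DecidableEq K] {W : Type*} {Z : K → Type*} [∀ c, Fintype (Z c)]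
variable {P Q : ∀ c, Z c → ℝ} {enc : ∀ c, Z c → W}

/-- **The hybrid argument** with fixed contents outside of a set. -/
theorem hyb2 (hP : ∀ c z, 0 ≤ P c z) (hP1 : ∀ c, ∑ z, P c z = 1)
    (hQ : ∀ c z, 0 ≤ Q c z) (hQ1 : ∀ c, ∑ z, Q c z = 1) (F : (K → Bool → W) → ℝ) (d : K → ℝ)
    (C₀ : K → Prop) (D₀ : K → Bool → W) :
    ∀ C : List K, C.Nodup → (∀ c ∈ C, C₀ c) → (∀ (c : K) (C₂ : List K), (c :: C₂) <:+ C →
      ∀ D : K → Bool → W, (∀ c' ∈ C₂, D c' true = D c' false) → (∀ c', ¬ C₀ c' → D c' = D₀ c') →
      |∑ z, ∑ z', P c z * (Q c z' * F (Function.update D c (mkp (enc c z) (enc c z')))) -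
        ∑ z', Q c z' * F (Function.update D c (mkp (enc c z') (enc c z')))| ≤ d c) →
    ∀ D : K → Bool → W, (∀ c', ¬ C₀ c' → D c' = D₀ c') →
      |EE P Q enc C F D - EC Q enc C F D| ≤ (C.map d).sum
  | [], _, _, _, D, _ => by simp [EE, EC]
  | c :: C, hn, hC, h, D, hD => by
    have hc : c ∉ C := (List.nodup_cons.1 hn).1
    have ih := hyb2 hP hP1 hQ hQ1 F d C₀ D₀ C (List.nodup_cons.1 hn).2
      (fun c' hc' => hC c' (List.mem_cons_of_mem _ hc'))
      fun c' C₂ hs => h c' C₂ (hs.trans (List.suffix_cons _ _))
    have hupd : ∀ v, ∀ c', ¬ C₀ c' → Function.update D c v c' = D₀ c' := by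
      intro v c' hc'
      rw [Function.update_of_ne]
      · exact hD c' hc'
      · rintro rfl
        exact hc' (hC _ List.mem_cons_self)
    have h1 : |∑ z, ∑ z', P c z * (Q c z' * EE P Q enc C F
        (Function.update D c (mkp (enc c z) (enc c z')))) -
        ∑ z, ∑ z', P c z * (Q c z' * EC Q enc C F
        (Function.update D c (mkp (enc c z) (enc c z'))))| ≤ (C.map d).sum := by
      rw [← sum_sub_distrib]
      simp only [← sum_sub_distrib]
      refine (abs_sum_le_sum_abs _ _).trans ?_
      have h2 : ∀ z, |∑ z', (P c z * (Q c z' * EE P Q enc C F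
          (Function.update D c (mkp (enc c z) (enc c z')))) - P c z * (Q c z' * EC Q enc C F
          (Function.update D c (mkp (enc c z) (enc c z')))))| ≤ P c z * (C.map d).sum := by
        intro z
        refine (abs_sum_le_sum_abs _ _).trans ?_
        have h3 : ∀ z', |P c z * (Q c z' * EE P Q enc C F
            (Function.update D c (mkp (enc c z) (enc c z')))) - P c z * (Q c z' * EC Q enc C F
            (Function.update D c (mkp (enc c z) (enc c z'))))| ≤
            P c z * (Q c z' * (C.map d).sum) := by
          intro z'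
          rw [← mul_sub, ← mul_sub, abs_mul, abs_mul, abs_of_nonneg (hP c z),
            abs_of_nonneg (hQ c z')]
          exact mul_le_mul_of_nonneg_left (mul_le_mul_of_nonneg_left (ih _ (hupd _)) (hQ c z'))
            (hP c z)
        refine (sum_le_sum fun z' _ => h3 z').trans ?_
        rw [← mul_sum, ← sum_mul, hQ1, one_mul]
      refine (sum_le_sum fun z _ => h2 z).trans ?_
      rw [← sum_mul, hP1, one_mul]
    have h2 : |∑ z, ∑ z', P c z * (Q c z' * EC Q enc C F
        (Function.update D c (mkp (enc c z) (enc c z')))) -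
        ∑ z', Q c z' * EC Q enc C F (Function.update D c (mkp (enc c z') (enc c z')))| ≤ d c := by
      have h3 : ∑ z, ∑ z', P c z * (Q c z' * EC Q enc C F
          (Function.update D c (mkp (enc c z) (enc c z')))) -
          ∑ z', Q c z' * EC Q enc C F (Function.update D c (mkp (enc c z') (enc c z'))) =
          EC Q enc C (fun D' => ∑ z, ∑ z', P c z * (Q c z' *
            F (Function.update D' c (mkp (enc c z) (enc c z')))) -
            ∑ z', Q c z' * F (Function.update D' c (mkp (enc c z') (enc c z')))) D := by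
        rw [EC_sub]
        congr 1
        · have e1 : (fun D' : K → Bool → W => ∑ z, ∑ z', P c z * (Q c z' *
              F (Function.update D' c (mkp (enc c z) (enc c z'))))) =
              fun D' => ∑ z, P c z * ∑ z', Q c z' *
                F (Function.update D' c (mkp (enc c z) (enc c z'))) := by
            funext D'
            exact sum_congr rfl fun z _ => by rw [mul_sum]
          rw [e1, EC_sum]
          refine sum_congr rfl fun z _ => ?_
          rw [EC_sum, mul_sum]
          refine sum_congr rfl fun z' _ => ?_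
          rw [EC_upd F c _ C D hc]
        · rw [EC_sum]
          refine sum_congr rfl fun z' _ => ?_
          rw [EC_upd F c _ C D hc]
      rw [h3]
      exact EC_le hQ hQ1 C D fun D' h4 h5 => h c C (List.suffix_refl _) D' h4 fun c' hc' => by
        rw [h5 c' fun h6 => hc' (hC c' (List.mem_cons_of_mem _ h6)), hD c' hc']
    have h3 : EE P Q enc (c :: C) F D - EC Q enc (c :: C) F D =
        (∑ z, ∑ z', P c z * (Q c z' * EE P Q enc C F
        (Function.update D c (mkp (enc c z) (enc c z')))) -
        ∑ z, ∑ z', P c z * (Q c z' * EC Q enc C F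
        (Function.update D c (mkp (enc c z) (enc c z'))))) +
        (∑ z, ∑ z', P c z * (Q c z' * EC Q enc C F
        (Function.update D c (mkp (enc c z) (enc c z')))) -
        ∑ z', Q c z' * EC Q enc C F (Function.update D c (mkp (enc c z') (enc c z')))) := by
      simp only [EE, EC]
      ring
    rw [h3, List.map_cons, List.sum_cons]
    refine (abs_add_le _ _).trans ?_
    linarith

end Hyb

section

variable {I : Type} [Fintype I] [DecidableEq I]

/-- an innermost quantifier without effect -/
theorem QF_dummy (m L : ℕ) (F : List Bool → (I → Bool) → Bool) (z : I → Bool) :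
    ∀ (k : ℕ) (b : Bool) (y : List Bool), y.length + k * (2 * m + 1) ≤ L →
      QF m (fun y => if (unpair y).2.length ≤ L then F (unpair y).2 else fun _ => false)
        (k + 1) b y z = QF m F k b y z := by
  intro k
  induction k with
  | zero =>
    intro b y hy
    have h0 : y.length ≤ L := by omega
    have h1 : ∀ w : List Bool, (if (unpair (pairBits w y)).2.length ≤ L then
        F (unpair (pairBits w y)).2 else fun _ => false) z = F y z := by
      intro w
      rw [unpair_pairBits]
      simp only
      rw [if_pos h0]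
    cases b with
    | true =>
      rw [Bool.eq_iff_iff]
      simp only [QF, decide_eq_true_eq, h1]
      constructor
      · rintro ⟨w, _, h⟩
        exact h
      · intro h
        exact ⟨[], Nat.zero_le _, h⟩
    | false =>
      rw [Bool.eq_iff_iff]
      simp only [QF, decide_eq_true_eq, h1]
      constructor
      · intro h
        exact h [] (Nat.zero_le _)
      · intro h w _
        exact h
  | succ k ih =>
    intro b y hy
    have hlen : ∀ w : List Bool, w.length ≤ m → (pairBits w y).length + k * (2 * m + 1) ≤ L := by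
      intro w hw
      rw [length_pairBits]
      have : (k + 1) * (2 * m + 1) = k * (2 * m + 1) + (2 * m + 1) := by ring
      omega
    cases b with
    | true =>
      rw [QF, QF, decide_eq_decide]
      exact exists_congr fun w => and_congr_right fun hw => by
        rw [ih false _ (hlen w hw)]
    | false =>
      rw [QF, QF, decide_eq_decide]
      exact forall_congr' fun w => forall_congr' fun hw => by
        rw [ih true _ (hlen w hw)]

theorem exists_dummy {t : ℕ} (m ℓ k : ℕ) (F : List Bool → (I → Bool) → Bool)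
    (hF : ∀ y : List Bool, y.length ≤ ℓ + k * (2 * m + 1) → DTr t (F y)) : ∀ j : ℕ,
    ∃ G : List Bool → (I → Bool) → Bool,
      (∀ y : List Bool, y.length ≤ ℓ + (k + j) * (2 * m + 1) → DTr t (G y)) ∧
      ∀ (b : Bool) (y : List Bool) (z : I → Bool), y.length ≤ ℓ →
        QF m G (k + j) b y z = QF m F k b y z := by
  intro j
  induction j with
  | zero => exact ⟨F, hF, fun b y z _ => rfl⟩
  | succ j ih =>
    obtain ⟨G, hG, hGF⟩ := ih
    refine ⟨fun y => if (unpair y).2.length ≤ ℓ + (k + j) * (2 * m + 1) then G (unpair y).2 else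
      fun _ => false, fun y _ => ?_, fun b y z hy => ?_⟩
    · show DTr _ (if (unpair y).2.length ≤ ℓ + (k + j) * (2 * m + 1) then G (unpair y).2 else
        fun _ => false)
      split_ifs with h2
      · exact hG _ h2
      · exact DTr.const ⟨false, fun _ => rfl⟩
    · rw [← hGF b y z hy]
      exact QF_dummy m (ℓ + (k + j) * (2 * m + 1)) G z (k + j) b y (by omega)

end

/-- more quantifiers -/
theorem fools_add {B : Blk} {u N k Λ Λ' : ℕ} {δ : ℝ} (j : ℕ) (h : Fools B (k + j) u N Λ' δ)
    (hΛ : Λ + (j + 1) * (Λ + 1) ≤ Λ') : Fools B k u N Λ δ := by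
  intro X _ _ hX m ℓ F hℓ hF y hy b Ψ
  obtain ⟨m', hm, hm1, hm2⟩ : ∃ m', (∀ y z, QF m F k b y z = QF m' F k b y z) ∧
      (k * (2 * m' + 1) = k * (2 * m + 1) ∧ 2 * m' + 1 ≤ Λ + 1) := by
    rcases Nat.eq_zero_or_pos k with hk | hk
    · subst hk
      exact ⟨0, fun y z => rfl, by simp, by omega⟩
    · refine ⟨m, fun y z => rfl, rfl, ?_⟩
      have h1 : 2 * m + 1 ≤ k * (2 * m + 1) := Nat.le_mul_of_pos_left _ hk
      omega
  obtain ⟨G, hG, hGF⟩ := exists_dummy m' ℓ k F (fun y hy => hF y (by rw [← hm1]; exact hy)) j
  have h3 : ℓ + (k + j) * (2 * m' + 1) ≤ Λ' := by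
    have h4 : (k + j) * (2 * m' + 1) = k * (2 * m' + 1) + j * (2 * m' + 1) := by ring
    have h5 : j * (2 * m' + 1) ≤ j * (Λ + 1) := Nat.mul_le_mul_left _ hm2
    have h6 : (j + 1) * (Λ + 1) = j * (Λ + 1) + (Λ + 1) := by ring
    omega
  have h1 := h X hX m' ℓ G h3 hG y hy b Ψ
  have h2 : ∀ z, (fun j' => QF m' G (k + j) b (y j') z) = fun j' => QF m F k b (y j') z := by
    intro z
    funext j'
    rw [hGF b (y j') z (hy j'), hm]
  simp only [h2] at h1
  exact h1

end Pool.Agent.H9x.SN
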