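import Pool.Agent.H9x.SN.Req

/-!
# The choice of the numbers
-/

set_option autoImplicit false
set_option linter.unusedSectionVars false

namespace Pool.Agent.H9x.SN

open Finset H568R2 Pool.Agent.H676 Pool.Agent.NPC Pool.Agent.H622R2 Pool.Agent.H620R2.Gauge
  Pool.Agent.H622R2.Exp Pool.Agent.TH678.ETH Pool.Agent.TH678.SETH Pool.Agent.TH678.RS
  Pool.Agent.H9x.Q Pool.Agent.H591R3.PHG

open Pool.Agent.H9x.RT (ll lev UU mem_UU card_lev exists_list)
open Pool.Agent.H9x.SP (Sys Dt orc orc_loc Blk Fools LB one_le_LB)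

theorem LB_sq {u i s : ℕ} (hu1 : 1 ≤ u) (hu2 : u ^ 2 ≤ s) (hi : (i + 1) ^ 4 ≤ s)
    (h28 : 28 ^ 4 ≤ s) : LB u 1 i ≤ Real.sqrt 2 ^ s := by
  have h1 : 28 * (u * (i + 1)) ≤ s := by
    by_contra hcon
    have h2 : s ^ 4 < (28 * (u * (i + 1))) ^ 4 := Nat.pow_lt_pow_left (not_le.1 hcon) (by norm_num)
    have h3 : (28 * (u * (i + 1))) ^ 4 = 28 ^ 4 * ((u ^ 2) ^ 2 * (i + 1) ^ 4) := by ring
    have h4 : 28 ^ 4 * ((u ^ 2) ^ 2 * (i + 1) ^ 4) ≤ s * (s ^ 2 * s) :=
      Nat.mul_le_mul h28 (Nat.mul_le_mul (Nat.pow_le_pow_left hu2 2) hi)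
    have h5 : s * (s ^ 2 * s) = s ^ 4 := by ring
    omega
  have h2 : LB u 1 i ≤ 2 ^ (4 * u + 1 + 2 * i * (2 * u + 5)) := by
    unfold LB
    have h3 : (((2 ^ (2 * u) * 1 : ℕ) : ℝ)) ^ 2 + 1 ≤ 2 ^ (4 * u + 1) := by
      push_cast
      rw [mul_one, ← pow_mul, show 2 * u * 2 = 4 * u by ring, pow_succ]
      have : (1 : ℝ) ≤ 2 ^ (4 * u) := one_le_pow₀ (by norm_num)
      linarith
    have h4 : (24 * ((2 ^ (2 * u) : ℕ) : ℝ)) ^ (2 * i) ≤ 2 ^ (2 * i * (2 * u + 5)) := by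
      have h5 : 24 * ((2 ^ (2 * u) : ℕ) : ℝ) ≤ 2 ^ (2 * u + 5) := by
        push_cast
        rw [pow_add]
        have : (0 : ℝ) < 2 ^ (2 * u) := by positivity
        nlinarith
      refine (pow_le_pow_left₀ (by positivity) h5 _).trans (le_of_eq ?_)
      rw [← pow_mul]
      congr 1
      ring
    rw [pow_add]
    exact mul_le_mul h3 h4 (by positivity) (by positivity)
  have h3 : 2 * (4 * u + 1 + 2 * i * (2 * u + 5)) ≤ s := by
    refine le_trans ?_ h1
    have h4 : i ≤ u * i := Nat.le_mul_of_pos_left i hu1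
    have e1 : 2 * (4 * u + 1 + 2 * i * (2 * u + 5)) = 8 * u + 2 + 8 * (u * i) + 20 * i := by ring
    have e2 : 28 * (u * (i + 1)) = 28 * (u * i) + 28 * u := by ring
    omega
  have h4 : Real.sqrt 2 ^ 2 = 2 := Real.sq_sqrt (by norm_num)
  have h5 : (1 : ℝ) ≤ Real.sqrt 2 := by
    rw [← Real.sqrt_one]
    exact Real.sqrt_le_sqrt (by norm_num)
  refine h2.trans ?_
  calc (2 : ℝ) ^ (4 * u + 1 + 2 * i * (2 * u + 5)) =
        Real.sqrt 2 ^ (2 * (4 * u + 1 + 2 * i * (2 * u + 5))) := by rw [pow_mul, h4]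
    _ ≤ Real.sqrt 2 ^ s := pow_le_pow_right₀ h5 h3

/-- the distance at a code -/
noncomputable def dl (S : ℕ → Polynomial ℕ) (c : ℕ × List Bool) : ℝ :=
  107 * Real.sqrt 2 ^ (lev S c) / 8 ^ (lev S c)

theorem dl_nonneg (S : ℕ → Polynomial ℕ) (c : ℕ × List Bool) : 0 ≤ dl S c := by
  unfold dl
  positivity

theorem sum_dl {S : ℕ → Polynomial ℕ} (hS : ∀ e n, n + e + 1 ≤ (S e).eval n) (n T : ℕ) :
    ∑ c ∈ UU S n T, dl S c ≤ (T + 1) * (214 / Real.sqrt 2 ^ n) := by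
  classical
  have hr : Real.sqrt 2 ^ 2 = 2 := Real.sq_sqrt (by norm_num)
  have hr1 : (1 : ℝ) ≤ Real.sqrt 2 := by
    rw [← Real.sqrt_one]
    exact Real.sqrt_le_sqrt (by norm_num)
  have hmap : ∀ c ∈ UU S n T, lev S c ∈ range (T + 1) := fun c hc => by
    rw [mem_range]
    have := ((mem_UU hS).1 hc).2
    omega
  rw [← sum_fiberwise_of_maps_to hmap]
  have hterm : ∀ s ∈ range (T + 1), ∑ c ∈ (UU S n T).filter (fun c => lev S c = s),
      dl S c ≤ 214 / Real.sqrt 2 ^ n := by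
    intro s _
    by_cases hsn : s < n
    · have : (UU S n T).filter (fun c => lev S c = s) = ∅ := by
        rw [filter_eq_empty_iff]
        intro c hc hcs
        have := ((mem_UU hS).1 hc).1
        omega
      rw [this, sum_empty]
      positivity
    · have h1 : ∑ c ∈ (UU S n T).filter (fun c => lev S c = s), dl S c ≤
          ∑ c ∈ (UU S n T).filter (fun c => lev S c = s), 107 * Real.sqrt 2 ^ s / 8 ^ s := by
        refine sum_le_sum fun c hc => ?_
        unfold dl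
        rw [(mem_filter.1 hc).2]
      refine h1.trans ?_
      rw [sum_const, nsmul_eq_mul]
      have h2 : ((((UU S n T).filter fun c => lev S c = s).card : ℕ) : ℝ) ≤ 2 ^ (2 * s + 1) := by
        exact_mod_cast card_lev hS n T s
      have h3 : (0 : ℝ) ≤ 107 * Real.sqrt 2 ^ s / 8 ^ s := by positivity
      refine (mul_le_mul_of_nonneg_right h2 h3).trans ?_
      have h4 : (2 : ℝ) ^ (2 * s + 1) * (107 * Real.sqrt 2 ^ s / 8 ^ s) =
          214 / Real.sqrt 2 ^ s := by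
        have h5 : (8 : ℝ) ^ s = 2 ^ (2 * s) * (Real.sqrt 2 ^ s * Real.sqrt 2 ^ s) := by
          rw [← mul_pow, ← sq, hr, ← pow_add, show 2 * s + s = 3 * s by ring, pow_mul]
          norm_num
        have h6 : (0 : ℝ) < 2 ^ (2 * s) := by positivity
        have h7 : (0 : ℝ) < Real.sqrt 2 ^ s := by positivity
        rw [h5, pow_succ]
        field_simp
        ring
      rw [h4]
      have h5 : Real.sqrt 2 ^ n ≤ Real.sqrt 2 ^ s := pow_le_pow_right₀ hr1 (not_lt.1 hsn)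
      exact div_le_div_of_nonneg_left (by positivity) (by positivity) h5
  refine (sum_le_sum hterm).trans ?_
  rw [sum_const, card_range, nsmul_eq_mul]
  push_cast
  exact le_rfl

theorem sum_filter_le' {K : Type} (p : K → Bool) {d : K → ℝ} (hd : ∀ c, 0 ≤ d c) : ∀ l : List K,
    ((l.filter p).map d).sum ≤ (l.map d).sum
  | [] => le_rfl
  | c :: l => by
    have ih := sum_filter_le' p hd l
    have h1 := hd c
    rw [List.filter_cons]
    split_ifs
    · rw [List.map_cons, List.sum_cons, List.map_cons, List.sum_cons]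
      linarith
    · rw [List.map_cons, List.sum_cons]
      linarith

theorem four_le {w : ℕ} (hw : 1 ≤ w) : w ^ 4 + 2 ≤ 2 ^ (4 * w) := by
  have h1 : w + 1 ≤ 2 ^ w := Nat.lt_two_pow_self
  have h2 : (w + 1) ^ 4 ≤ 2 ^ (4 * w) := by
    rw [mul_comm, pow_mul]
    exact Nat.pow_le_pow_left h1 4
  have h3 : w ^ 4 + 2 ≤ (w + 1) ^ 4 := by
    have : (w + 1) ^ 4 = w ^ 4 + 4 * w ^ 3 + 6 * w ^ 2 + 4 * w + 1 := by ring
    omega
  omega

end Pool.Agent.H9x.SN
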