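import Pool.Agent.H9x.SN.Low

/-!
# One requirement
-/

set_option autoImplicit false
set_option linter.unusedSectionVars false

namespace Pool.Agent.H9x.SN

open Finset H568R2 Pool.Agent.H676 Pool.Agent.NPC Pool.Agent.H622R2 Pool.Agent.H620R2.Gauge
  Pool.Agent.H622R2.Exp Pool.Agent.TH678.ETH Pool.Agent.TH678.SETH Pool.Agent.TH678.RS
  Pool.Agent.H9x.Q Pool.Agent.H591R3.PHG

open Pool.Agent.H9x.RT (ll lev HZ HZ_iff mkp EE EC EC_le EC_sub EE_eq block_diff)
open Pool.Agent.H9x.RU (lf quant_QF)
open Pool.Agent.H9x.SP (Sys Dt J orc base orc_on orc_off orc_free orc_loc tv tv_congr tv_true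
  tv_false tv_iff Blk Fools LB orc_sel)

variable {ℓ : ℕ → ℕ} {qf : ℕ → QFamily} {S R : ℕ → Polynomial ℕ}

/-- the data agree below `N` -/
def Agr (N : ℕ) (D D' : Dt (sysN ℓ qf S).K) : Prop :=
  (∀ c, lev S c < N → D'.bl c = D.bl c) ∧ ∀ v : List Bool, v.length < N → D'.fr v = D.fr v

/-- the active codes of the areas before `m` -/
def Act (Lo : ℕ → Prop) (S : ℕ → Polynomial ℕ) (th : ℕ → ℕ) (al : ℕ → Prop) (m : ℕ)
    (c : ℕ × List Bool) : Prop :=
  c.1 < m ∧ th (c.1 / 2) ≤ lev S c ∧ (¬ c.1 % 2 = 0 → al (c.1 / 2)) ∧ (c.1 % 2 = 0 → Lo (c.1 / 2))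

/-- the contents of a block are good -/
def GC (Bk : ℕ × List Bool → Blk) (c : ℕ × List Bool) (v : Bool → List Bool → Bool) : Prop :=
  (Bk c).good true (v true) ∧ (Bk c).good false (v false)

theorem out_iff {M : Alg} {A : Oracle} {y : List Bool} :
    (M.out A y).getD [] = [true] ↔ M.out A y = some [true] := by
  rcases h : M.out A y with _ | z
  · simp
  · simp

theorem quant_cut {M : Alg} {T Λ P k : ℕ} {A : Oracle} {x₀ : List Bool}
    (hcut : ∀ (A : Oracle) (y : List Bool), y.length ≤ Λ → M.out (CC.cut T A) y = M.out A y)
    (hΛ : x₀.length + k * (2 * P + 1) ≤ Λ) :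
    Quant P (fun y => (M.out A y).getD []) k true x₀ ↔
      QF P (fun y (_ : Unit → Bool) => decide (M.out (CC.cut T A) y = some [true])) k true x₀
        (fun _ => false) = true := by
  refine quant_QF Λ (fun y hy => ?_) k true x₀ hΛ
  rw [out_iff, decide_eq_true_iff, hcut A y hy]

theorem tv_congr_odd {A A' : Oracle} {c : ℕ × List Bool} (hc : ¬ c.1 % 2 = 0)
    (h : ∀ z : List Bool, z.length ≤ lev S c → er A z = er A' z) :
    tv (sysN ℓ qf S) c A = tv (sysN ℓ qf S) c A' := by
  rw [Bool.eq_iff_iff, tv_iff, tv_iff]
  show AcN qf S c A ↔ AcN qf S c A'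
  unfold AcN
  rw [if_neg hc, if_neg hc]
  have h2 : CC.cut (lev S c) (er A) = CC.cut (lev S c) (er A') := by
    funext z
    unfold CC.cut
    split_ifs with hz
    · exact h z hz
    · rfl
  rw [h2]

open Classical in
/-- **One requirement.** -/
theorem req_step (hK : Kn qf S R) (Bk : ℕ × List Bool → Blk) {a k j n N u T Λ P : ℕ}
    {th : ℕ → ℕ} {al Lo : ℕ → Prop} (M : Alg) {x₀ y₀ : List Bool} 
    (hn : lev S (2 * a, y₀) = n) (hN : N + 5 ≤ n) (hnT : n ≤ T)
    (hΛ : x₀.length + k * (2 * P + 1) ≤ Λ)
    (hp : ∀ y : List Bool, y.length ≤ Λ →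
      M.p.eval y.length * ((T + 1) * (T + 1) * ((T + 1) * (T + 1))) ≤ 2 ^ (2 * u))
    (hcut : ∀ (A : Oracle) (y : List Bool), y.length ≤ Λ → M.out (CC.cut T A) y = M.out A y)
    (C : List (ℕ × List Bool)) (hCn : C.Nodup)
    (hCm : ∀ c, c ∈ C ↔ (n ≤ lev S c ∧ lev S c ≤ T) ∧
      (c = (2 * a, y₀) ∨ (Lo a ∧ ¬ c.1 % 2 = 0 ∧ a ≤ c.1 / 2)))
    (hCp : C.Pairwise (fun a b => lev S a ≤ lev S b)) (δ : ℕ × List Bool → ℝ)
    (hδ : ∀ c ∈ C, 0 ≤ δ c) (hfool : ∀ c ∈ C, Fools (Bk c) k u 1 Λ (δ c))
    (hnum : (C.map δ).sum < 1 / 2)
    (D : Dt (sysN ℓ qf S).K) (h1 : ∀ c, Act Lo S th al (2 * j) c → GC Bk c (D.bl c))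
    (h2 : ∀ i < j, th i ≤ N)
    (h3 : ∀ i < j, al i → ∀ D' : Dt (sysN ℓ qf S).K, Agr (th i) D D' →
      (∀ c, Act Lo S th al (2 * i + 1) c → GC Bk c (D'.bl c)) →
      Bnd (qf i) (er (orc (sysN ℓ qf S) D'))) :
    ∃ D' : Dt (sysN ℓ qf S).K, Agr N D D' ∧ (∀ c, Act Lo S th al (2 * j) c → GC Bk c (D'.bl c)) ∧
      GC Bk (2 * a, y₀) (D'.bl (2 * a, y₀)) ∧ ¬ (D'.fr (nam (2 * a) y₀) = true ↔
        Quant P (fun y => (M.out (er (orc (sysN ℓ qf S) D')) y).getD []) k true x₀) := by
  by_contra hcon
  push Not at hcon
  -- good contents
  have hV : ∀ (c : ℕ × List Bool) (t : Bool), ∃ V, (Bk c).good t V := by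
    intro c t
    by_contra hcon
    push Not at hcon
    have h2 : ∀ z, (Bk c).P t z = 0 := fun z => by
      by_contra h3
      exact hcon _ ((Bk c).sup t z h3)
    have := (Bk c).s1 t
    simp [h2] at this
  choose V hV using hV
  set Hi : ℕ × List Bool → Prop := fun c => c = (2 * a, y₀) ∨
    (Lo a ∧ ¬ c.1 % 2 = 0 ∧ a ≤ c.1 / 2) with hHi
  set B₀ : ℕ × List Bool → Bool → List Bool → Bool := fun c => if n ≤ lev S c then
    (if Hi c then V c else if ¬ c.1 % 2 = 0 ∧ ¬ (c.1 / 2 < j ∧ al (c.1 / 2)) then
      fun _ => D.bl c false else D.bl c) else D.bl c with hB₀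
  have hB₀lt : ∀ c, lev S c < n → B₀ c = D.bl c := fun c hc => by
    show (if n ≤ lev S c then _ else _) = _
    rw [if_neg (not_le.2 hc)]
  have hB₀act : ∀ c, Act Lo S th al (2 * j) c → GC Bk c (B₀ c) := by
    intro c hc
    by_cases hnc : n ≤ lev S c
    · by_cases hh : Hi c
      · have : B₀ c = V c := by
          show (if n ≤ lev S c then _ else _) = _
          rw [if_pos hnc, if_pos hh]
        rw [this]
        exact ⟨hV c true, hV c false⟩
      · have : B₀ c = D.bl c := by
          show (if n ≤ lev S c then _ else _) = _
          rw [if_pos hnc, if_neg hh, if_neg fun h4 => h4.2 ⟨by have := hc.1; omega,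
          hc.2.2.1 h4.1⟩]
        rw [this]
        exact h1 c hc
    · rw [hB₀lt c (not_le.1 hnc)]
      exact h1 c hc
  have hB₀low : ∀ c, ¬ Hi c → (¬ c.1 % 2 = 0 → c.1 / 2 < j ∧ al (c.1 / 2)) →
      B₀ c = D.bl c := by
    intro c hh ha
    show (if n ≤ lev S c then _ else _) = _
    split_ifs with h4 h6
    · exact absurd (ha h6.1) h6.2
    · rfl
    · rfl
  set fr : Bool → List Bool → Bool := fun b => Function.update D.fr (nam (2 * a) y₀) b with hfr
  have hlen : (nam (2 * a) y₀).length + 5 = n := by
    rw [nam_len, ← hn]
    have := hK.ev (2 * a) y₀.length (by omega)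
    show _ = (S (2 * a)).eval y₀.length
    omega
  have hfrlt : ∀ b (v : List Bool), v.length < N → fr b v = D.fr v := by
    intro b v hv
    show Function.update D.fr (nam (2 * a) y₀) b v = _
    rw [Function.update_of_ne]
    rintro rfl
    omega
  have hfrne : ∀ b b' (v : List Bool), v ≠ nam (2 * a) y₀ → fr b v = fr b' v := by
    intro b b' v hv
    show Function.update D.fr (nam (2 * a) y₀) b v = Function.update D.fr (nam (2 * a) y₀) b' v
    rw [Function.update_of_ne hv, Function.update_of_ne hv]
  set C₀ : ℕ × List Bool → Prop := fun c => c ∈ C with hC₀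
  set φ : Bool → (ℕ × List Bool → Bool → List Bool → Bool) → ℝ := fun b B =>
    if Quant P (fun y => (M.out (er (orc (sysN ℓ qf S) ⟨B, fr b⟩)) y).getD []) k true x₀
      then 1 else 0 with hφ
  -- the hybrid argument
  have hhyb : ∀ b : Bool, |EE (fun c => (Bk c).P true) (fun c => (Bk c).P false)
      (fun c => (Bk c).enc) C (φ b) B₀ - EC (fun c => (Bk c).P false) (fun c => (Bk c).enc) C
        (φ b) B₀| ≤ (C.map δ).sum := by
    intro b
    refine hyb2 (K := ℕ × List Bool) (Z := fun c => (Bk c).I → Bool) (P := fun c => (Bk c).P true)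
      (Q := fun c => (Bk c).P false) (enc := fun c => (Bk c).enc) (fun c => (Bk c).nn true)
      (fun c => (Bk c).s1 true) (fun c => (Bk c).nn false) (fun c => (Bk c).s1 false) (φ b) δ C₀ B₀
      C hCn (fun c hc => hc) ?_ B₀ (fun c _ => rfl)
    intro c C₂ hsuf D' hcol hoff
    have hcC : c ∈ C := hsuf.subset List.mem_cons_self
    obtain ⟨⟨hc1, hc2⟩, hc3⟩ := (hCm c).1 hcC
    have hafter : ∀ c', lev S c < lev S c' → lev S c' ≤ T → Hi c' → c' ∈ C₂ := by
      intro c' h4 h5 h6
      have h7 : c' ∈ C := (hCm c').2 ⟨⟨by omega, h5⟩, h6⟩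
      obtain ⟨C₁, hC₁⟩ := hsuf
      rw [← hC₁, List.mem_append] at h7
      rw [← hC₁, List.pairwise_append] at hCp
      rcases h7 with h7 | h7
      · have := hCp.2.2 c' h7 c List.mem_cons_self
        omega
      · rcases List.mem_cons.1 h7 with h7 | h7
        · subst h7
          exact absurd h4 (lt_irrefl _)
        · exact h7
    obtain ⟨t, ht⟩ := orc_sel (Y := sysN ℓ qf S) D' (fr b) c
    set G : ((Bk c).I → Bool) → Oracle := fun z =>
      er (orc (sysN ℓ qf S) (⟨Function.update D' c (mkp ((Bk c).enc z) ((Bk c).enc z)), fr b⟩ :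
        Dt (sysN ℓ qf S).K)) with hG
    have hφh : ∀ z, φ b (Function.update D' c (mkp ((Bk c).enc z) ((Bk c).enc z))) =
        br (fun z => QF P (lf M T G) k true x₀ z) z := by
      intro z
      have h4 : Quant P (fun y => (M.out (G z) y).getD []) k true x₀ ↔
          QF P (lf M T G) k true x₀ z = true := by
        refine quant_QF Λ (fun y hy => ?_) k true x₀ hΛ
        rw [out_iff]
        unfold lf
        rw [decide_eq_true_iff, hcut (G z) y hy]
      show (if Quant P (fun y => (M.out (G z) y).getD []) k true x₀ then (1 : ℝ) else 0) =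
        if QF P (lf M T G) k true x₀ z = true then (1 : ℝ) else 0
      by_cases h5 : Quant P (fun y => (M.out (G z) y).getD []) k true x₀
      · rw [if_pos h5, if_pos (h4.1 h5)]
      · rw [if_neg h5, if_neg fun h6 => h5 (h4.2 h6)]
    refine block_diff ((Bk c).s1 true) ((Bk c).s1 false)
      (H := br (fun z => QF P (lf M T G) k true x₀ z)) (t := t) (hδ c hcC) (fun z z' => ?_) hφh ?_
    · rw [← hφh]
      have h11 : orc (sysN ℓ qf S) (⟨Function.update D' c (mkp ((Bk c).enc z) ((Bk c).enc z')), fr b⟩ :
          Dt (sysN ℓ qf S).K) = orc (sysN ℓ qf S) (⟨Function.update D' c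
            (mkp ((Bk c).enc (if t then z else z')) ((Bk c).enc (if t then z else z'))), fr b⟩ :
          Dt (sysN ℓ qf S).K) := by
        have h10 := ht ((Bk c).enc z) ((Bk c).enc z')
        cases t <;> exact h10
      exact congrArg (fun O => if Quant P (fun y => (M.out (er O) y).getD []) k true x₀
          then (1 : ℝ) else 0) h11
    · have hFam : FamN ℓ qf S (lev S c) T (fun z : (Bk c).I → Bool =>
          (⟨Function.update D' c (mkp ((Bk c).enc z) ((Bk c).enc z)), fr b⟩ :
            Dt (sysN ℓ qf S).K)) := by
        refine ⟨fun c' hc' z z' => ?_, fun z z' => rfl, fun c' hc' hc'' => ?_⟩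
        · have hne : c' ≠ c := by rintro rfl; exact absurd hc' (lt_irrefl _)
          show Function.update D' c _ c' = Function.update D' c _ c'
          rw [Function.update_of_ne hne, Function.update_of_ne hne]
        · by_cases hne : c' = c
          · left
            intro v
            subst hne
            rcases (Bk c').cls v with ⟨i₀, hi₀⟩ | h0
            · right
              refine ⟨i₀, fun z t => ?_⟩
              show Function.update D' c' _ c' t v = _
              rw [Function.update_self, ← hi₀ z]
              cases t <;> rfl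
            · left
              refine ⟨false, fun z t => ?_⟩
              show Function.update D' c' _ c' t v = _
              rw [Function.update_self, ← h0 z]
              cases t <;> rfl
          · right
            refine ⟨fun z z' => ?_, ?_⟩
            · show Function.update D' c _ c' = Function.update D' c _ c'
              rw [Function.update_of_ne hne, Function.update_of_ne hne]
            · rcases hc'.eq_or_lt with h4 | h4
              · exact Or.inl h4.symm
              · right
                by_cases hev : c'.1 % 2 = 0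
                · exact Or.inl hev
                · right
                  by_cases hki : Lo a ∧ a ≤ c'.1 / 2
                  · left
                    have h5 := hcol c' (hafter c' h4 hc'' (Or.inr ⟨hki.1, hev, hki.2⟩))
                    intro z
                    show Function.update D' c _ c' true = Function.update D' c _ c' false
                    rw [Function.update_of_ne hne]
                    exact h5
                  · have hnHi : ∀ c'' : ℕ × List Bool, Act Lo S th al (2 * (c'.1 / 2) + 1) c'' →
                        ¬ Hi c'' := by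
                      rintro c'' h5 (h6 | ⟨h6, h7, h8⟩)
                      · have h7 : Lo a := by
                          have h8 := h5.2.2.2
                          rw [h6] at h8
                          have h9 : 2 * a / 2 = a := by omega
                          rw [← h9]
                          exact h8 (by simp)
                        have h8 := h5.1
                        rw [h6] at h8
                        simp only at h8
                        exact hki ⟨h7, by omega⟩
                      · exact hki ⟨h6, by have := h5.1; omega⟩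
                    have hnHi' : ¬ Hi c' := by
                      rintro (h6 | ⟨h6, h7, h8⟩)
                      · apply hev
                        rw [h6]
                        simp
                      · exact hki ⟨h6, h8⟩
                    have hnC : ∀ c'', ¬ Hi c'' → c'' ∉ C := fun c'' h5 h6 => h5 ((hCm c'').1 h6).2
                    by_cases hal : c'.1 / 2 < j ∧ al (c'.1 / 2)
                    · right
                      refine ⟨hev, fun z => ?_⟩
                      refine h3 (c'.1 / 2) hal.1 hal.2 _ ⟨fun c'' h5 => ?_, fun v hv => ?_⟩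
                        fun c'' h5 => ?_
                      · have h6 := h2 (c'.1 / 2) hal.1
                        have h7 : c'' ∉ C := fun h8 => by
                          have := ((hCm c'').1 h8).1.1
                          omega
                        have h8 : c'' ≠ c := by rintro rfl; exact h7 hcC
                        show Function.update D' c _ c'' = _
                        rw [Function.update_of_ne h8]
                        exact (hoff c'' h7).trans (hB₀lt c'' (by omega))
                      · exact hfrlt b v (lt_of_lt_of_le hv (h2 _ hal.1))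
                      · have h6 := hnC c'' (hnHi c'' h5)
                        have h7 : Function.update D' c (mkp ((Bk c).enc z) ((Bk c).enc z)) c'' =
                            D.bl c'' := by
                          have h8 : c'' ≠ c := by rintro rfl; exact h6 hcC
                          rw [Function.update_of_ne h8]
                          exact (hoff c'' h6).trans (hB₀low c'' (hnHi c'' h5) fun h9 =>
                            ⟨by have := h5.1; omega, h5.2.2.1 h9⟩)
                        show GC Bk c'' (Function.update D' c _ c'')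
                        rw [h7]
                        exact h1 c'' ⟨by have := h5.1; omega, h5.2.1, h5.2.2⟩
                    · left
                      intro z
                      show Function.update D' c _ c' true = Function.update D' c _ c' false
                      rw [Function.update_of_ne hne, hoff c' (hnC c' hnHi')]
                      show (if n ≤ lev S c' then _ else _ : Bool → List Bool → Bool) true =
                        (if n ≤ lev S c' then _ else _ : Bool → List Bool → Bool) false
                      rw [if_pos (by omega), if_neg hnHi', if_pos ⟨hev, hal⟩]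
      have h5 := hfool c hcC (Fin 1) (by simp) P x₀.length (lf M T G) hΛ
        (fun y hy => (dtr_runD (fun q hq => hFam.dtr hK hq) M y _ []).mono
          (hp y (hy.trans hΛ))) (fun _ => x₀) (fun _ => le_rfl) true
        (fun v : Fin 1 → Bool => v 0)
      exact h5
  -- the support
  have hEE : ∀ b : Bool, EE (fun c => (Bk c).P true) (fun c => (Bk c).P false)
      (fun c => (Bk c).enc) C (φ b) B₀ = if b then 1 else 0 := by
    intro b
    refine EE_eq (G := fun c v => GC Bk c v)
      (fun c => (Bk c).s1 true) (fun c => (Bk c).s1 false)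
      (fun c z z' hz hz' => ⟨(Bk c).sup true z hz, (Bk c).sup false z' hz'⟩) C B₀
      fun B hB hB' => ?_
    have h4 := hcon ⟨B, fr b⟩ ⟨fun c hc => ?_, fun v hv => hfrlt b v hv⟩ (fun c hc => ?_)
      (hB _ ((hCm (2 * a, y₀)).2 ⟨⟨hn.ge, hn.le.trans hnT⟩, Or.inl rfl⟩))
    · have h5 : fr b (nam (2 * a) y₀) = b := Function.update_self _ _ _
      show (if Quant P (fun y => (M.out (er (orc (sysN ℓ qf S) ⟨B, fr b⟩)) y).getD []) k true x₀
        then (1 : ℝ) else 0) = _
      have h6 : (fr b (nam (2 * a) y₀) = true ↔
        Quant P (fun y => (M.out (er (orc (sysN ℓ qf S) ⟨B, fr b⟩)) y).getD []) k true x₀) := h4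
      rw [h5] at h6
      cases b
      · rw [if_neg fun h7 => by simpa using h6.2 h7]
        simp
      · rw [if_pos (h6.1 rfl)]
        simp
    · have h5 : c ∉ C := fun h6 => by
        have := ((hCm c).1 h6).1.1
        omega
      show B c = _
      rw [hB' c h5, hB₀lt c (by omega)]
    · show GC Bk c (B c)
      by_cases hcC : c ∈ C
      · exact hB c hcC
      · rw [hB' c hcC]
        exact hB₀act c hc
  -- without the hidden bit
  have hEC : |EC (fun c => (Bk c).P false) (fun c => (Bk c).enc) C
      (fun B => φ true B - φ false B) B₀| ≤ 0 := by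
    refine EC_le (fun c => (Bk c).nn false) (fun c => (Bk c).s1 false) C B₀ fun B hB hB' => ?_
    have key : ∀ (m : ℕ) (q : List Bool), q.length = m → m ≤ T →
        er (orc (sysN ℓ qf S) ⟨B, fr true⟩) q = er (orc (sysN ℓ qf S) ⟨B, fr false⟩) q := by
      intro m
      induction m using Nat.strong_induction_on with
      | _ m ih =>
        intro q hq hqT
        by_cases hfree : ∃ u, q = true :: u
        · obtain ⟨u, rfl⟩ := hfree
          rfl
        · push Not at hfree
          rw [er_off hfree, er_off hfree]
          by_cases hp : ∃ c w, (sysN ℓ qf S).ok c w ∧ q = (sysN ℓ qf S).adr c w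
          · obtain ⟨c, w, hok, rfl⟩ := hp
            have hlt : lev S c < m := by
              rw [← hq]
              exact (sysN ℓ qf S).lt c w
            rw [orc_on _ hok, orc_on _ hok]
            show B c (tv (sysN ℓ qf S) c _) w = B c (tv (sysN ℓ qf S) c _) w
            by_cases hcC : c ∈ C
            · have h4 := hB c hcC
              have h5 : ∀ t, B c t = B c true := by
                intro t
                cases t
                · exact h4.symm
                · rfl
              rw [h5, h5 (tv (sysN ℓ qf S) c (orc (sysN ℓ qf S) ⟨B, fr false⟩))]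
            · by_cases hev : c.1 % 2 = 0
              · rw [tv_even hK _ hev, tv_even hK _ hev]
                have h4 : fr true (nam c.1 c.2) = fr false (nam c.1 c.2) := by
                  refine hfrne _ _ _ fun h5 => ?_
                  obtain ⟨h6, h7⟩ := nam_inj h5
                  have h8 : c = (2 * a, y₀) := Prod.ext h6 h7
                  apply hcC
                  have h9 : ((2 * a, y₀) : ℕ × List Bool) ∈ C :=
                    (hCm (2 * a, y₀)).2 ⟨⟨hn.ge, hn.le.trans hnT⟩, Or.inl rfl⟩
                  rw [h8]
                  exact h9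
                show B c (fr true (nam c.1 c.2)) w = B c (fr false (nam c.1 c.2)) w
                rw [h4]
              · rw [tv_congr_odd hev fun z hz => ih z.length (lt_of_le_of_lt hz hlt) z rfl
                  (hz.trans (hlt.le.trans hqT))]
          · push Not at hp
            rw [orc_off _ hp, orc_off _ hp]
            rcases q with _ | ⟨c₁, u⟩
            · rfl
            · cases c₁
              · rfl
              · exact absurd rfl (hfree u)
    have h4 : CC.cut T (er (orc (sysN ℓ qf S) ⟨B, fr true⟩)) =
        CC.cut T (er (orc (sysN ℓ qf S) ⟨B, fr false⟩)) := by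
      funext q
      unfold CC.cut
      split_ifs with hq
      · exact key q.length q rfl hq
      · rfl
    have h5 : φ true B = φ false B := by
      have h6 := quant_cut (k := k) (A := er (orc (sysN ℓ qf S) ⟨B, fr true⟩)) hcut hΛ
      have h7 := quant_cut (k := k) (A := er (orc (sysN ℓ qf S) ⟨B, fr false⟩)) hcut hΛ
      rw [h4] at h6
      have h8 := h6.trans h7.symm
      show (if Quant P (fun y => (M.out (er (orc (sysN ℓ qf S) ⟨B, fr true⟩)) y).getD []) k true x₀
        then (1 : ℝ) else 0) = if Quant P (fun y =>
          (M.out (er (orc (sysN ℓ qf S) ⟨B, fr false⟩)) y).getD []) k true x₀ then (1 : ℝ) else 0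
      by_cases h9 : Quant P (fun y => (M.out (er (orc (sysN ℓ qf S) ⟨B, fr true⟩)) y).getD []) k
          true x₀
      · rw [if_pos h9, if_pos (h8.1 h9)]
      · rw [if_neg h9, if_neg fun h10 => h9 (h8.2 h10)]
    rw [h5, sub_self, abs_zero]
  rw [EC_sub] at hEC
  have h4 := hhyb true
  have h5 := hhyb false
  rw [hEE] at h4 h5
  rw [if_pos rfl] at h4
  rw [if_neg (by simp)] at h5
  have h6 := abs_le.1 h4
  have h7 := abs_le.1 h5
  have h8 := abs_le.1 hEC
  linarith [h6.1, h6.2, h7.1, h7.2, h8.1, h8.2]

end Pool.Agent.H9x.SN
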