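import Pool.Agent.H9x.SN.Num

/-!
# Requirements can be met
-/

set_option autoImplicit false
set_option linter.unusedSectionVars false

namespace Pool.Agent.H9x.SN

open Finset H568R2 Pool.Agent.H676 Pool.Agent.NPC Pool.Agent.H622R2 Pool.Agent.H620R2.Gauge
  Pool.Agent.H622R2.Exp Pool.Agent.TH678.ETH Pool.Agent.TH678.SETH Pool.Agent.TH678.RS
  Pool.Agent.H9x.Q Pool.Agent.H591R3.PHG

open Pool.Agent.H9x.RT (ll lev UU mem_UU card_lev exists_list Yes No)
open Pool.Agent.H9x.SP (Sys Dt orc orc_loc Blk Fools LB one_le_LB sval Fools.mono)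

variable {ℓ : ℕ → ℕ} {qf : ℕ → QFamily} {S R : ℕ → Polynomial ℕ}

/-- the properties of the blocks -/
structure BkN (ℓ : ℕ → ℕ) (S : ℕ → Polynomial ℕ) (Bk : ℕ × List Bool → Blk) : Prop where
  yes : ∀ c : ℕ × List Bool, c.1 % 4 = 0 → ∀ V, (Bk c).good true V → Yes (lev S c) V
  no : ∀ c : ℕ × List Bool, c.1 % 4 = 0 → ∀ V, (Bk c).good false V → No (lev S c) V
  sip : ∀ c : ℕ × List Bool, ¬ c.1 % 4 = 0 → ∀ j, ℓ c.1 = j + 1 → ∀ t V,
    (Bk c).good t V → sval (lev S c) j V = !t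
  bit : ∀ c : ℕ × List Bool, ¬ c.1 % 4 = 0 → ℓ c.1 = 0 → ∀ t V, (Bk c).good t V → V [] = t
  ff : ∀ c : ℕ × List Bool, c.1 % 4 = 0 → ∀ k u N Λ : ℕ, Λ + 16 * lev S c + 84 + k ≤ 2 ^ (2 * u) →
    Fools (Bk c) k u N Λ (107 * LB u N k / 8 ^ lev S c)
  fs : ∀ c : ℕ × List Bool, ¬ c.1 % 4 = 0 → ∀ j, ℓ c.1 = j + 1 → ∀ u N Λ : ℕ,
    8 * u ≤ lev S c → Λ + 3 * lev S c + 84 + j ≤ 2 ^ (2 * u) →
    Fools (Bk c) j u N Λ (107 * LB u N j / 8 ^ lev S c)

/-- what is required of the oracle -/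
def ReqN (Bk : ℕ × List Bool → Blk) (a k t : ℕ) (M : Alg) (pol : Polynomial ℕ)
    (D : Dt (sysN ℓ qf S).K) : Prop :=
  ∃ x : List Bool, GC Bk (2 * a, List.replicate t true ++ x)
    (D.bl (2 * a, List.replicate t true ++ x)) ∧ ¬ (D.fr (nam (2 * a) (List.replicate t true ++ x)) = true ↔
    Quant (pol.eval x.length) (fun y => (M.out (er (orc (sysN ℓ qf S) D)) y).getD []) k true x)

/-- **Requirements can be met.** -/
theorem req_exists (hK : Kn qf S R) {Bk : ℕ × List Bool → Blk} (hB : BkN ℓ S Bk) {a k j N : ℕ}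
    {th : ℕ → ℕ} {al Lo : ℕ → Prop} (hℓ1 : Lo a → ∀ e, ¬ e % 2 = 0 → a ≤ e / 2 → k < ℓ e)
    (hℓ2 : ∀ e, ℓ e ≤ e + 1) (hak : a / 2 = k) (hℓ4 : ∀ e, e % 4 = 2 → ℓ e = e / 4 + 1) (M : Alg) (pol : Polynomial ℕ) (t : ℕ)
    (D : Dt (sysN ℓ qf S).K) (h1 : ∀ c, Act Lo S th al (2 * j) c → GC Bk c (D.bl c))
    (h2 : ∀ i < j, th i ≤ N)
    (h3 : ∀ i < j, al i → ∀ D' : Dt (sysN ℓ qf S).K, Agr (th i) D D' →
      (∀ c, Act Lo S th al (2 * i + 1) c → GC Bk c (D'.bl c)) →
      Bnd (qf i) (er (orc (sysN ℓ qf S) D'))) :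
    ∃ (D' : Dt (sysN ℓ qf S).K) (N' : ℕ), Agr N D D' ∧ N ≤ N' ∧
      (∀ c, Act Lo S th al (2 * j) c → GC Bk c (D'.bl c)) ∧
      ∀ D'' : Dt (sysN ℓ qf S).K, Agr N' D' D'' → ReqN Bk a k t M pol D'' := by
  classical
  obtain ⟨qb, hqb⟩ := M.out_local
  set ΛP : Polynomial ℕ := Polynomial.X + Polynomial.C k * (Polynomial.C 2 * pol + Polynomial.C 1)
    with hΛP
  have hΛe : ∀ m, ΛP.eval m = m + k * (2 * pol.eval m + 1) := fun m => by rw [hΛP]; simp
  set TP : Polynomial ℕ := qb.comp ΛP + ΛP + Polynomial.X + Polynomial.C (t + 2 * a + 6) with hTP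
  have hTe : ∀ m, TP.eval m = qb.eval (ΛP.eval m) + ΛP.eval m + m + (t + 2 * a + 6) := fun m => by
    rw [hTP]
    simp only [Polynomial.eval_add, Polynomial.eval_comp, Polynomial.eval_C, Polynomial.eval_X]
  set σ : Polynomial ℕ := Polynomial.C 400 * (M.p.comp ΛP + Polynomial.C 1) *
    (TP + Polynomial.C 1) ^ 4 with hσ
  have hσe : ∀ m, σ.eval m = 400 * (M.p.eval (ΛP.eval m) + 1) * (TP.eval m + 1) ^ 4 := fun m => by
    rw [hσ]
    simp only [Polynomial.eval_add, Polynomial.eval_comp, Polynomial.eval_C, Polynomial.eval_mul,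
      Polynomial.eval_pow]
  obtain ⟨d, hd1, hd⟩ := YAux.poly_bound σ
  set w : ℕ := (a + 1) + (N + 5) + 28 + 16 * d with hw
  have hw4 := four_le (w := w) (by omega)
  set m : ℕ := 2 ^ (4 * w) - 2 with hm
  have hmw : w ^ 4 ≤ m := by omega
  have hm2 : m + 2 = 2 ^ (4 * w) := by omega
  set u : ℕ := 4 * w * d with hu
  set x₀ : List Bool := List.replicate m false with hx₀
  have hx₀l : x₀.length = m := by rw [hx₀, List.length_replicate]
  set y₀ : List Bool := List.replicate t true ++ x₀ with hy₀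
  have hy₀l : y₀.length = t + m := by rw [hy₀, List.length_append, List.length_replicate, hx₀l]
  set n : ℕ := lev S (2 * a, y₀) with hn
  have hne : n = t + m + 2 * a + 6 := by
    rw [hn]
    show (S (2 * a)).eval y₀.length = _
    rw [hK.ev (2 * a) y₀.length (by omega), hy₀l]
  set T : ℕ := TP.eval m with hT
  set Λ : ℕ := ΛP.eval m with hΛ
  have hTe' : T = qb.eval Λ + Λ + m + (t + 2 * a + 6) := hTe m
  have hnT : n ≤ T := by rw [hT, hTe, hne]; omega
  have hΛT : Λ ≤ T := by rw [hT, hTe]; omega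
  have hσ2 : 400 * (M.p.eval Λ + 1) * (T + 1) ^ 4 ≤ 2 ^ (2 * u) := by
    have h4 := hd m
    rw [hσe, hm2, ← pow_mul] at h4
    refine h4.trans (Nat.pow_le_pow_right (by norm_num) ?_)
    rw [hu]
    omega
  have hT4 : 400 * (T + 1) ^ 4 ≤ 2 ^ (2 * u) := by
    refine le_trans ?_ hσ2
    exact Nat.mul_le_mul_right _ (Nat.le_mul_of_pos_right 400 (by omega))
  have hT42 : (T + 1) * (T + 1) ≤ (T + 1) ^ 4 := by
    rw [← sq]
    exact Nat.pow_le_pow_right (by omega) (by norm_num)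
  have hT41 : T + 1 ≤ (T + 1) ^ 4 := by
    calc T + 1 = (T + 1) ^ 1 := (pow_one _).symm
      _ ≤ _ := Nat.pow_le_pow_right (by omega) (by norm_num)
  have hu1 : 1 ≤ u := by
    rw [hu]
    exact Nat.mul_pos (by omega) hd1
  have h4dw : 16 * d ≤ w := by omega
  have huw : u ≤ w * w := by
    rw [hu]
    nlinarith
  have hww : w * w * (w * w) = w ^ 4 := by ring
  have hu2 : u ^ 2 ≤ w ^ 4 := by
    rw [sq, ← hww]
    exact Nat.mul_le_mul huw huw
  have h8u : 8 * u ≤ w ^ 4 := by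
    have h4 : 8 ≤ w * w := by nlinarith
    rw [← hww]
    exact Nat.mul_le_mul h4 huw
  have hkw : (k + 1) ^ 4 ≤ w ^ 4 := Nat.pow_le_pow_left (by omega) 4
  have h28 : 28 ^ 4 ≤ w ^ 4 := Nat.pow_le_pow_left (by omega) 4
  have hwn : w ^ 4 ≤ n := by omega
  have hww4 : w ≤ w ^ 4 := by
    calc w = w ^ 1 := (pow_one _).symm
      _ ≤ _ := Nat.pow_le_pow_right (by omega) (by norm_num)
  obtain ⟨C₁, hC1, hC2, hC3, hC4⟩ := exists_list (S := S) (fun e n => by have := hK.big e n; omega)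
    n T
  set C : List (ℕ × List Bool) := C₁.filter
    (fun c => decide (c = (2 * a, y₀) ∨ (Lo a ∧ ¬ c.1 % 2 = 0 ∧ a ≤ c.1 / 2))) with hC
  have hCm : ∀ c, c ∈ C ↔ (n ≤ lev S c ∧ lev S c ≤ T) ∧
      (c = (2 * a, y₀) ∨ (Lo a ∧ ¬ c.1 % 2 = 0 ∧ a ≤ c.1 / 2)) := by
    intro c
    rw [hC, List.mem_filter, hC2, decide_eq_true_iff]
  have hfool : ∀ c ∈ C, Fools (Bk c) k u 1 Λ (dl S c) := by
    intro c hc
    obtain ⟨⟨h4, h5⟩, h6⟩ := (hCm c).1 hc
    by_cases hev : c.1 % 2 = 0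
    · have h7 : c = (2 * a, y₀) := by
        rcases h6 with h6 | h6
        · exact h6
        · exact absurd hev h6.2.1
      have h8 := LB_sq (s := lev S c) (i := k) hu1 (by omega) (by omega) (by omega)
      have h9 : (0 : ℝ) < 8 ^ lev S c := by positivity
      have hc1 : c.1 = 2 * a := by rw [h7]
      by_cases hev4 : c.1 % 4 = 0
      · refine (hB.ff c hev4 k u 1 Λ ?_).mono ?_
        · have : 2 * a ≤ T := by omega
          omega
        · unfold dl
          rw [div_le_div_iff_of_pos_right h9]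
          linarith
      · refine (hB.fs c hev4 k (by rw [hℓ4 c.1 (by omega)]; omega) u 1 Λ (by omega) ?_).mono ?_
        · have : 2 * a ≤ T := by omega
          omega
        · unfold dl
          rw [div_le_div_iff_of_pos_right h9]
          linarith
    · obtain ⟨_, ho2, _⟩ := hK.od c.1 c.2.length hev
      have h7 : (c.1 + 1) ^ 4 ≤ lev S c := ho2
      have h8 : Lo a ∧ a ≤ c.1 / 2 := by
        rcases h6 with h6 | h6
        · exfalso
          apply hev
          rw [h6]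
          simp
        · exact ⟨h6.1, h6.2.2⟩
      obtain ⟨j', hj'⟩ : ∃ j', ℓ c.1 = j' + 1 :=
        ⟨ℓ c.1 - 1, by have := hℓ1 h8.1 c.1 hev h8.2; omega⟩
      have hkj' : k ≤ j' := by
        have := hℓ1 h8.1 c.1 hev h8.2
        omega
      have hj2 : j' ≤ c.1 := by
        have := hℓ2 c.1
        omega
      have h9 : c.1 + 1 ≤ lev S c := by
        refine le_trans ?_ h7
        calc c.1 + 1 = (c.1 + 1) ^ 1 := (pow_one _).symm
          _ ≤ _ := Nat.pow_le_pow_right (by omega) (by norm_num)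
      have h10 : (j' + 1) ^ 4 ≤ lev S c :=
        le_trans (Nat.pow_le_pow_left (by omega) 4) h7
      refine (fools_add (k := k) (j' - k) (Λ' := Λ + (j' - k + 1) * (Λ + 1)) ?_
        le_rfl).mono (δ := 107 * LB u 1 j' / 8 ^ lev S c) ?_
      · rw [Nat.add_sub_cancel' hkj']
        refine hB.fs c (by omega) j' hj' u 1 _ (by omega) ?_
        have h11 : (j' - k + 1) * (Λ + 1) ≤ (T + 1) * (T + 1) :=
          Nat.mul_le_mul (by omega) (by omega)
        omega
      · unfold dl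
        have h11 := LB_sq (s := lev S c) (i := j') hu1 (by omega) h10 (by omega)
        have h12 : (0 : ℝ) < 8 ^ lev S c := by positivity
        rw [div_le_div_iff_of_pos_right h12]
        linarith
  have hnum : (C.map (dl S)).sum < 1 / 2 := by
    have h4 := sum_filter_le' (fun c => decide (c = (2 * a, y₀) ∨ (Lo a ∧ ¬ c.1 % 2 = 0 ∧ a ≤ c.1 / 2)))
      (dl_nonneg S) C₁
    rw [← hC] at h4
    rw [hC4] at h4
    have h5 := sum_dl (S := S) (fun e n => by have := hK.big e n; omega) n T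
    have h6 : ((T : ℝ) + 1) * (214 / Real.sqrt 2 ^ n) < 1 / 2 := by
      have hr : Real.sqrt 2 ^ 2 = 2 := Real.sq_sqrt (by norm_num)
      have h7 : 428 * (T + 1) < 2 ^ (2 * u + 1) := by
        rw [pow_succ]
        omega
      have h8 : 2 * (2 * u + 1) ≤ n := by omega
      have hr1 : (1 : ℝ) ≤ Real.sqrt 2 := by
        rw [← Real.sqrt_one]
        exact Real.sqrt_le_sqrt (by norm_num)
      have h9 : (2 : ℝ) ^ (2 * u + 1) ≤ Real.sqrt 2 ^ n := by
        calc (2 : ℝ) ^ (2 * u + 1) = Real.sqrt 2 ^ (2 * (2 * u + 1)) := by rw [pow_mul, hr]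
          _ ≤ _ := pow_le_pow_right₀ hr1 h8
      have h10 : (428 : ℝ) * (T + 1) < 2 ^ (2 * u + 1) := by exact_mod_cast h7
      have h11 : (0 : ℝ) < Real.sqrt 2 ^ n := by positivity
      rw [mul_div_assoc', div_lt_iff₀ h11]
      linarith
    linarith
  obtain ⟨D', hD1, hD2, hD4, hD3⟩ := req_step hK Bk (Lo := Lo) M (x₀ := x₀) (y₀ := y₀) (P := pol.eval m) (u := u)
    (T := T) (Λ := Λ) (N := N) rfl (by omega) hnT (by rw [hΛ, hΛe, hx₀l]) (fun y hy => by
      have h4 : M.p.eval y.length ≤ M.p.eval Λ := eval_mono _ hy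
      refine le_trans ?_ hσ2
      have h5 : (T + 1) * (T + 1) * ((T + 1) * (T + 1)) = (T + 1) ^ 4 := by ring
      rw [h5]
      exact Nat.mul_le_mul_right _ (by omega)) (fun A y hy => by
      obtain ⟨Q, _, h6, h7⟩ := hqb A y
      refine h7 _ fun q hq => ?_
      unfold CC.cut
      rw [if_pos]
      have h8 := h6 q hq
      have h9 := eval_mono qb hy
      rw [hTe']
      omega) C (hC1.filter _) hCm (hC3.filter _) (dl S) (fun c _ => dl_nonneg S c) hfool hnum D h1 h2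
      h3
  refine ⟨D', T + n + N + 1, hD1, by omega, hD2, fun D'' hD'' => ⟨x₀, ?_, ?_⟩⟩
  · have h4 := hD''.1 (2 * a, y₀) (by rw [← hn]; omega)
    show GC Bk (2 * a, y₀) (D''.bl (2 * a, y₀))
    rw [h4]
    exact hD4
  have hloc : ∀ q : List Bool, q.length ≤ T → orc (sysN ℓ qf S) D'' q = orc (sysN ℓ qf S) D' q := by
    intro q hq
    exact orc_loc (n := T + n + N + 1) (fun c hc' => hD''.1 c hc') (fun v hv => hD''.2 v hv) _ q rfl
      (by omega)
  have hcut : ∀ (A : Oracle) (y : List Bool), y.length ≤ Λ →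
      M.out (CC.cut T A) y = M.out A y := fun A y hy => by
    obtain ⟨Q, _, h6, h7⟩ := hqb A y
    refine h7 _ fun q hq => ?_
    unfold CC.cut
    rw [if_pos]
    have h8 := h6 q hq
    have h9 := eval_mono qb hy
    rw [hTe']
    omega
  have h4 : CC.cut T (er (orc (sysN ℓ qf S) D'')) = CC.cut T (er (orc (sysN ℓ qf S) D')) := by
    funext q
    unfold CC.cut
    split_ifs with hq
    · exact er_congr (hloc q hq)
    · rfl
  have hΛ0 : x₀.length + k * (2 * pol.eval x₀.length + 1) ≤ Λ := by rw [hΛ, hΛe, hx₀l]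
  have h5 := quant_cut (k := k) (A := er (orc (sysN ℓ qf S) D'')) hcut hΛ0
  have h6 := quant_cut (k := k) (A := er (orc (sysN ℓ qf S) D')) hcut hΛ0
  rw [h4] at h5
  have h7 := h5.trans h6.symm
  have h8 : D''.fr (nam (2 * a) y₀) = D'.fr (nam (2 * a) y₀) := hD''.2 _ (by
    rw [nam_len, hy₀l]
    omega)
  rw [← hy₀, h7, h8, hx₀l]
  exact hD3

end Pool.Agent.H9x.SN
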