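import Pool.Agent.H9x.SN.Rex

/-!
# The stages of the construction
-/

set_option autoImplicit false
set_option linter.unusedSectionVars false

namespace Pool.Agent.H9x.SN

open Finset H568R2 Pool.Agent.H676 Pool.Agent.NPC Pool.Agent.H622R2 Pool.Agent.H620R2.Gauge
  Pool.Agent.H622R2.Exp Pool.Agent.TH678.ETH Pool.Agent.TH678.SETH Pool.Agent.TH678.RS
  Pool.Agent.H9x.Q Pool.Agent.H591R3.PHG

open Pool.Agent.H9x.RT (ll lev UU mem_UU card_lev exists_list Yes No)
open Pool.Agent.H9x.SP (Sys Dt orc orc_loc Blk Fools LB one_le_LB sval)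

variable {ℓ : ℕ → ℕ} {qf : ℕ → QFamily} {S R : ℕ → Polynomial ℕ} {Lo : ℕ → Prop}

/-- the state of the construction -/
structure Stt (ℓ : ℕ → ℕ) (qf : ℕ → QFamily) (S : ℕ → Polynomial ℕ) where
  D : Dt (sysN ℓ qf S).K
  N : ℕ
  th : ℕ → ℕ
  al : ℕ → Prop

/-- the invariants -/
structure Inv (Lo : ℕ → Prop) (Bk : ℕ × List Bool → Blk) (j : ℕ) (p : Stt ℓ qf S) : Prop where
  i1 : ∀ c, Act Lo S p.th p.al (2 * j) c → GC Bk c (p.D.bl c)
  i2 : ∀ i < j, p.th i ≤ p.N
  i3 : ∀ i < j, p.al i → ∀ D' : Dt (sysN ℓ qf S).K, Agr (p.th i) p.D D' →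
    (∀ c, Act Lo S p.th p.al (2 * i + 1) c → GC Bk c (D'.bl c)) → Bnd (qf i) (er (orc (sysN ℓ qf S) D'))
  i4 : ∀ i < j, ¬ p.al i → ∀ D' : Dt (sysN ℓ qf S).K, Agr p.N p.D D' →
    ¬ Bnd (qf i) (er (orc (sysN ℓ qf S) D'))

/-- extension of states -/
structure Ex' (j : ℕ) (p p' : Stt ℓ qf S) : Prop where
  N : p.N ≤ p'.N
  D : Agr p.N p.D p'.D
  th : ∀ i < j, p'.th i = p.th i
  al : ∀ i < j, (p'.al i ↔ p.al i)

theorem Agr.refl (N : ℕ) (D : Dt (sysN ℓ qf S).K) : Agr N D D := ⟨fun _ _ => rfl, fun _ _ => rfl⟩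

theorem Agr.trans' {N N' : ℕ} {D D' D'' : Dt (sysN ℓ qf S).K} (h : Agr N D D') (h' : Agr N' D' D'')
    (hN : N ≤ N') : Agr N D D'' :=
  ⟨fun c hc => (h'.1 c (lt_of_lt_of_le hc hN)).trans (h.1 c hc),
    fun v hv => (h'.2 v (lt_of_lt_of_le hv hN)).trans (h.2 v hv)⟩

theorem Agr.mono {N N' : ℕ} {D D' : Dt (sysN ℓ qf S).K} (h : Agr N' D D') (hN : N ≤ N') :
    Agr N D D' :=
  ⟨fun c hc => h.1 c (lt_of_lt_of_le hc hN), fun v hv => h.2 v (lt_of_lt_of_le hv hN)⟩

/-- activity depends only on the data of the areas -/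
theorem act_congr {th th' : ℕ → ℕ} {al al' : ℕ → Prop} {j : ℕ} (h1 : ∀ i < j, th' i = th i)
    (h2 : ∀ i < j, (al' i ↔ al i)) {m : ℕ} (hm : m ≤ 2 * j) (c : ℕ × List Bool) :
    Act Lo S th' al' m c ↔ Act Lo S th al m c := by
  unfold Act
  refine and_congr_right fun h3 => ?_
  rw [h1 (c.1 / 2) (by omega), h2 (c.1 / 2) (by omega)]

theorem exists_gc (Bk : ℕ × List Bool → Blk) :
    ∃ V : ℕ × List Bool → Bool → List Bool → Bool, ∀ c, GC Bk c (V c) := by
  have hV : ∀ (c : ℕ × List Bool) (t : Bool), ∃ V, (Bk c).good t V := by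
    intro c t
    by_contra hcon
    push Not at hcon
    have h2 : ∀ z, (Bk c).P t z = 0 := fun z => by
      by_contra h3
      exact hcon _ ((Bk c).sup t z h3)
    have := (Bk c).s1 t
    simp [h2] at this
  choose V hV using hV
  exact ⟨V, fun c => ⟨hV c true, hV c false⟩⟩

/-- the acceptance probability depends on the short strings -/
theorem acc_congr (hK : Kn qf S R) {i : ℕ} {A A' : Oracle} {x : List Bool}
    (h : ∀ q : List Bool, q.length ≤ (R i).eval x.length → A q = A' q) :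
    (qf i).acc A x = (qf i).acc A' x := by
  unfold QFamily.acc
  exact prob_congr h _ (hK.sh _ _) _ _

open Classical in
/-- **A new area.** -/
theorem decide_step (hK : Kn qf S R) (Bk : ℕ × List Bool → Blk) {j : ℕ} {p : Stt ℓ qf S}
    (hp : Inv Lo Bk j p) : ∃ p' : Stt ℓ qf S, Inv Lo Bk (j + 1) p' ∧ Ex' j p p' := by
  obtain ⟨V, hV⟩ := exists_gc Bk
  set th' : ℕ → ℕ := Function.update p.th j p.N with hth'
  have hthj : th' j = p.N := Function.update_self _ _ _
  have hth : ∀ i < j, th' i = p.th i := fun i hi => Function.update_of_ne (by omega) _ _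
  by_cases h : ∃ D' : Dt (sysN ℓ qf S).K, Agr p.N p.D D' ∧
      (∀ c, Act Lo S th' p.al (2 * j + 1) c → GC Bk c (D'.bl c)) ∧
      ¬ Bnd (qf j) (er (orc (sysN ℓ qf S) D'))
  · obtain ⟨D', hD1, hD2, hD3⟩ := h
    unfold Bnd at hD3
    rw [not_forall] at hD3
    obtain ⟨x, hx⟩ := hD3
    set al' : ℕ → Prop := Function.update p.al j False with hal'
    have halj : ¬ al' j := by
      rw [hal', Function.update_self]
      exact fun h => h
    have hal : ∀ i < j, (al' i ↔ p.al i) := fun i hi => by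
      rw [hal', Function.update_of_ne (by omega)]
    set N' : ℕ := p.N + (R j).eval x.length with hN'
    refine ⟨⟨D', N', th', al'⟩, ⟨?_, ?_, ?_, ?_⟩, ⟨by show p.N ≤ N'; omega, hD1, hth, hal⟩⟩
    · intro c hc
      refine hD2 c ⟨?_, hc.2.1, fun h1 => ?_, hc.2.2.2⟩
      · by_contra h2
        have h3 : c.1 / 2 = j := by have := hc.1; omega
        have h4 : ¬ c.1 % 2 = 0 := by omega
        have h5 := hc.2.2.1 h4
        rw [h3] at h5
        exact halj h5
      · have h2 := hc.2.2.1 h1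
        have h3 : c.1 / 2 < j := by
          by_contra h4
          have h5 : c.1 / 2 = j := by have := hc.1; omega
          rw [h5] at h2
          exact halj h2
        exact (hal _ h3).1 h2
    · intro i hi
      show th' i ≤ N'
      rcases Nat.lt_succ_iff_lt_or_eq.1 hi with h1 | rfl
      · rw [hth i h1]
        have := hp.i2 i h1
        omega
      · rw [hthj]
        omega
    · intro i hi hai D'' h1 h2
      have hij : i < j := by
        rcases Nat.lt_succ_iff_lt_or_eq.1 hi with h1 | rfl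
        · exact h1
        · exact absurd hai halj
      have hthi : th' i = p.th i := hth i hij
      have h1' : Agr (th' i) D' D'' := h1
      rw [hthi] at h1'
      refine hp.i3 i hij ((hal i hij).1 hai) D'' ((hD1.mono (hp.i2 i hij)).trans' h1' le_rfl)
        fun c hc => h2 c ((act_congr hth hal (by omega) c).2 hc)
    · intro i hi hai D'' h1
      rcases Nat.lt_succ_iff_lt_or_eq.1 hi with h2 | rfl
      · exact hp.i4 i h2 (fun h3 => hai ((hal i h2).2 h3)) D''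
          (hD1.trans' h1 (by show p.N ≤ N'; omega))
      · intro h3
        apply hx
        have h4 : (qf i).acc (er (orc (sysN ℓ qf S) D'')) x = (qf i).acc (er (orc (sysN ℓ qf S) D')) x :=
          acc_congr hK fun q hq => er_congr (orc_loc (n := N') (fun c hc' => h1.1 c hc')
            (fun v hv => h1.2 v hv) _ q rfl (by omega))
        rw [← h4]
        exact h3 x
  · push Not at h
    set al' : ℕ → Prop := Function.update p.al j True with hal'
    have halj : al' j := by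
      rw [hal', Function.update_self]
      exact trivial
    have hal : ∀ i < j, (al' i ↔ p.al i) := fun i hi => by
      rw [hal', Function.update_of_ne (by omega)]
    set D₂ : Dt (sysN ℓ qf S).K := ⟨fun c : ℕ × List Bool => if c.1 / 2 = j ∧ p.N ≤ lev S c then V c
      else p.D.bl c, p.D.fr⟩ with hD₂
    have hag : Agr p.N p.D D₂ := ⟨fun c hc => if_neg fun h => by
      have := h.2
      omega, fun v _ => rfl⟩
    refine ⟨⟨D₂, p.N, th', al'⟩, ⟨?_, ?_, ?_, ?_⟩, ⟨le_rfl, hag, hth, hal⟩⟩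
    · intro c hc
      show GC Bk c (if c.1 / 2 = j ∧ p.N ≤ lev S c then V c else p.D.bl c)
      by_cases h1 : c.1 / 2 = j
      · have h2 : th' (c.1 / 2) ≤ lev S c := hc.2.1
        rw [h1, hthj] at h2
        rw [if_pos ⟨h1, h2⟩]
        exact hV c
      · rw [if_neg fun h2 => h1 h2.1]
        have h3 : c.1 < 2 * j := by
          have := hc.1
          omega
        exact hp.i1 c ((act_congr hth hal le_rfl c).1 ⟨h3, hc.2⟩)
    · intro i hi
      show th' i ≤ p.N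
      rcases Nat.lt_succ_iff_lt_or_eq.1 hi with h1 | rfl
      · rw [hth i h1]
        exact hp.i2 i h1
      · rw [hthj]
    · intro i hi hai D'' h1 h2
      have h1' : Agr (th' i) D₂ D'' := h1
      rcases Nat.lt_succ_iff_lt_or_eq.1 hi with hij | rfl
      · rw [hth i hij] at h1'
        refine hp.i3 i hij ((hal i hij).1 hai) D'' ((hag.mono (hp.i2 i hij)).trans' h1' le_rfl)
          fun c hc => h2 c ((act_congr hth hal (by omega) c).2 hc)
      · rw [hthj] at h1'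
        refine h D'' (hag.trans' h1' le_rfl) fun c hc => h2 c ⟨hc.1, hc.2.1, fun h3 => ?_,
          hc.2.2.2⟩
        have h4 : c.1 / 2 < i := by
          have := hc.1
          omega
        exact (hal _ h4).2 (hc.2.2.1 h3)
    · intro i hi hai D'' h1
      rcases Nat.lt_succ_iff_lt_or_eq.1 hi with h2 | rfl
      · exact hp.i4 i h2 (fun h3 => hai ((hal i h2).2 h3)) D'' (hag.trans' h1 le_rfl)
      · exact absurd halj hai

/-- **One requirement.** -/
theorem req_stage (hK : Kn qf S R) {Bk : ℕ × List Bool → Blk} (hB : BkN ℓ S Bk)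
    (hℓ1 : ∀ a, Lo a → ∀ e, ¬ e % 2 = 0 → a ≤ e / 2 → a / 2 < ℓ e)
    (hℓ2 : ∀ e, ℓ e ≤ e + 1) (hℓ4 : ∀ e, e % 4 = 2 → ℓ e = e / 4 + 1) {j : ℕ}
    {p : Stt ℓ qf S} (hp : Inv Lo Bk j p) (a : ℕ) (M : Alg) (pol : Polynomial ℕ) :
    ∃ p' : Stt ℓ qf S, Inv Lo Bk j p' ∧ Ex' j p p' ∧ p.N < p'.N ∧
      ∀ D'' : Dt (sysN ℓ qf S).K, Agr p'.N p'.D D'' → ReqN Bk a (a / 2) (p.th a) M pol D'' := by
  obtain ⟨D', N', h1, h2, h3, h4⟩ := req_exists hK hB (hℓ1 a) hℓ2 rfl hℓ4 M pol (p.th a) p.D hp.i1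
    hp.i2 hp.i3
  refine ⟨⟨D', N' + 1, p.th, p.al⟩, ⟨h3, fun i hi => ?_, fun i hi hai D'' h5 h6 => ?_,
    fun i hi hai D'' h5 => ?_⟩, ⟨by show p.N ≤ N' + 1; omega, h1, fun _ _ => rfl, fun _ _ => Iff.rfl⟩,
      by show p.N < N' + 1; omega, fun D'' h5 => h4 D'' (h5.mono (by show N' ≤ N' + 1; omega))⟩
  · show p.th i ≤ N' + 1
    have := hp.i2 i hi
    omega
  · exact hp.i3 i hi hai D'' ((h1.mono (hp.i2 i hi)).trans' h5 le_rfl) h6
  · exact hp.i4 i hi hai D'' (h1.trans' h5 (by show p.N ≤ N' + 1; omega))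

theorem Ex'.trans' {j : ℕ} {p p' p'' : Stt ℓ qf S} (h : Ex' j p p') (h' : Ex' j p' p'') :
    Ex' j p p'' :=
  ⟨h.N.trans h'.N, h.D.trans' h'.D h.N, fun i hi => (h'.th i hi).trans (h.th i hi),
    fun i hi => (h'.al i hi).trans (h.al i hi)⟩

theorem Ex'.mono {j j' : ℕ} {p p' : Stt ℓ qf S} (h : Ex' j' p p') (hj : j ≤ j') : Ex' j p p' :=
  ⟨h.N, h.D, fun i hi => h.th i (by omega), fun i hi => h.al i (by omega)⟩

/-- **One stage.** -/
theorem whole_step (hK : Kn qf S R) {Bk : ℕ × List Bool → Blk} (hB : BkN ℓ S Bk)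
    (hℓ1 : ∀ a, Lo a → ∀ e, ¬ e % 2 = 0 → a ≤ e / 2 → a / 2 < ℓ e)
    (hℓ2 : ∀ e, ℓ e ≤ e + 1) (hℓ4 : ∀ e, e % 4 = 2 → ℓ e = e / 4 + 1)
    (en : ℕ → ℕ × Alg × Polynomial ℕ) (j : ℕ) (p : Stt ℓ qf S) (hp : Inv Lo Bk j p) :
    ∃ p' : Stt ℓ qf S, Inv Lo Bk (j + 1) p' ∧ Ex' j p p' ∧ p.N < p'.N ∧ ((en j).1 ≤ j →
      ∀ D'' : Dt (sysN ℓ qf S).K, Agr p'.N p'.D D'' →
        ReqN Bk (en j).1 ((en j).1 / 2) (p'.th (en j).1) (en j).2.1 (en j).2.2 D'') := by
  obtain ⟨p₁, h1, h2⟩ := decide_step hK Bk hp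
  by_cases hk : (en j).1 ≤ j
  · obtain ⟨p₂, h3, h4, h5, h6⟩ := req_stage hK hB hℓ1 hℓ2 hℓ4 h1 (en j).1 (en j).2.1 (en j).2.2
    refine ⟨p₂, h3, h2.trans' (h4.mono (by omega)), lt_of_le_of_lt h2.N h5, fun _ D'' h7 => ?_⟩
    rw [h4.th _ (by omega)]
    exact h6 D'' h7
  · refine ⟨⟨p₁.D, p₁.N + 1, p₁.th, p₁.al⟩, ⟨h1.i1, fun i hi => ?_, h1.i3, fun i hi hai D' h5 =>
      h1.i4 i hi hai D' (h5.mono (by show p₁.N ≤ p₁.N + 1; omega))⟩,
      ⟨by show p.N ≤ p₁.N + 1; have := h2.N; omega, h2.D, h2.th, h2.al⟩,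
      by show p.N < p₁.N + 1; have := h2.N; omega, fun h => absurd h hk⟩
    show p₁.th i ≤ p₁.N + 1
    have := h1.i2 i hi
    omega

/-- **The limit.** -/
theorem exists_lim (hK : Kn qf S R) {Bk : ℕ × List Bool → Blk} (hB : BkN ℓ S Bk)
    (hℓ1 : ∀ a, Lo a → ∀ e, ¬ e % 2 = 0 → a ≤ e / 2 → a / 2 < ℓ e)
    (hℓ2 : ∀ e, ℓ e ≤ e + 1) (hℓ4 : ∀ e, e % 4 = 2 → ℓ e = e / 4 + 1) :
    ∃ (D : Dt (sysN ℓ qf S).K) (th : ℕ → ℕ) (al : ℕ → Prop),
      (∀ c : ℕ × List Bool, th (c.1 / 2) ≤ lev S c → (¬ c.1 % 2 = 0 → al (c.1 / 2)) →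
        (c.1 % 2 = 0 → Lo (c.1 / 2)) → GC Bk c (D.bl c)) ∧
      (∀ i, ¬ al i → ¬ Bnd (qf i) (er (orc (sysN ℓ qf S) D))) ∧
      ∀ (a : ℕ) (M : Alg) (pol : Polynomial ℕ), ReqN Bk a (a / 2) (th a) M pol D := by
  classical
  have hne : Nonempty (ℕ × Alg × Polynomial ℕ) :=
    ⟨⟨0, ⟨fun _ => [], CC.const_polyTime _, 0⟩, 0⟩⟩
  have hcp := CC.poly_countable
  obtain ⟨en₀, hen₀⟩ := exists_surjective_nat (ℕ × Alg × Polynomial ℕ)
  set en : ℕ → ℕ × Alg × Polynomial ℕ := fun j => en₀ (Nat.unpair j).1 with hen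
  choose f hf1 hf2 hf3 hf4 using fun (j : ℕ) (p : {p : Stt ℓ qf S // Inv Lo Bk j p}) =>
    whole_step hK hB hℓ1 hℓ2 hℓ4 en j p.1 p.2
  have h0 : Inv Lo Bk 0 (⟨⟨fun _ _ _ => false, fun _ => false⟩, 0, fun _ => 0, fun _ => False⟩ :
      Stt ℓ qf S) :=
    ⟨fun c hc => absurd hc.1 (by omega), fun i hi => absurd hi (by omega),
      fun i hi => absurd hi (by omega), fun i hi => absurd hi (by omega)⟩
  let st : (j : ℕ) → {p : Stt ℓ qf S // Inv Lo Bk j p} := fun j =>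
    Nat.rec ⟨_, h0⟩ (fun j p => ⟨f j p, hf1 j p⟩) j
  have hst : ∀ j, (st (j + 1)).1 = f j (st j) := fun j => rfl
  have hstep : ∀ j, Ex' j (st j).1 (st (j + 1)).1 := fun j => by rw [hst]; exact hf2 j (st j)
  have hlt : ∀ j, (st j).1.N < (st (j + 1)).1.N := fun j => by rw [hst]; exact hf3 j (st j)
  have hNj : ∀ j, j ≤ (st j).1.N := by
    intro j
    induction j with
    | zero => exact Nat.zero_le _
    | succ j ih => have := hlt j; omega
  have hext : ∀ i j, i ≤ j → Ex' i (st i).1 (st j).1 := by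
    intro i j hij
    induction hij with
    | refl => exact ⟨le_rfl, Agr.refl _ _, fun _ _ => rfl, fun _ _ => Iff.rfl⟩
    | @step m him ih => exact ih.trans' ((hstep m).mono him)
  set D : Dt (sysN ℓ qf S).K := ⟨fun c => (st (lev S c + 1)).1.D.bl c,
    fun v => (st (v.length + 1)).1.D.fr v⟩ with hD
  have hag : ∀ j, Agr (st j).1.N (st j).1.D D := by
    intro j
    constructor
    · intro c hc
      show (st (lev S c + 1)).1.D.bl c = _
      rcases le_total (lev S c + 1) j with h | h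
      · exact ((hext _ _ h).D.1 c (hNj (lev S c + 1))).symm
      · exact (hext _ _ h).D.1 c hc
    · intro v hv
      show (st (v.length + 1)).1.D.fr v = _
      rcases le_total (v.length + 1) j with h | h
      · exact ((hext _ _ h).D.2 v (hNj (v.length + 1))).symm
      · exact (hext _ _ h).D.2 v hv
  have hth : ∀ i j, i < j → (st j).1.th i = (st (i + 1)).1.th i := fun i j hij =>
    (hext (i + 1) j hij).th i (by omega)
  have hal : ∀ i j, i < j → ((st j).1.al i ↔ (st (i + 1)).1.al i) := fun i j hij =>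
    (hext (i + 1) j hij).al i (by omega)
  refine ⟨D, fun i => (st (i + 1)).1.th i, fun i => (st (i + 1)).1.al i, fun c hc1 hc2 hc3 => ?_,
    fun i hi => ?_, fun k M pol => ?_⟩
  · set j : ℕ := lev S c + c.1 + 1 with hj
    have h1 := (st j).2.i1 c ⟨by omega, by rw [hth _ _ (by omega)]; exact hc1,
      fun h => (hal _ _ (by omega)).2 (hc2 h), hc3⟩
    have h2 := (hag j).1 c (lt_of_lt_of_le (by omega) (hNj j))
    rw [h2]
    exact h1
  · exact (st (i + 1)).2.i4 i (by omega) hi D (hag (i + 1))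
  · obtain ⟨a, ha⟩ := hen₀ (k, M, pol)
    set j : ℕ := Nat.pair a k with hj
    have hkj : k ≤ j := Nat.right_le_pair a k
    have hej : en j = (k, M, pol) := by
      rw [hen]
      simp only
      rw [hj, Nat.unpair_pair, ha]
    have h1 := hf4 j (st j)
    rw [hej] at h1
    have h2 := h1 hkj D (hag (j + 1))
    have h3 : (f j (st j)).th k = (st (k + 1)).1.th k := hth k (j + 1) (by omega)
    show ReqN Bk k (k / 2) ((st (k + 1)).1.th k) M pol D
    rw [← h3]
    exact h2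

end Pool.Agent.H9x.SN
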