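import Pool.Agent.H9x.SP.WorldA
import Pool.Agent.H9x.SN.Hy
import Pool.Agent.H9x.Q.Size

/-!
# The system of codes: hidden bits and bounded-error quantum families
-/

set_option autoImplicit false

namespace Pool.Agent.H9x.SN

open Finset Pool.Agent.NPC Pool.Agent.H622R2 Pool.Agent.H620R2.Gauge Pool.Agent.H622R2.Exp
  Pool.Agent.TH678.ETH Pool.Agent.TH678.SETH Pool.Agent.TH678.RS Pool.Agent.H9x.Q Filter
  Pool.Agent.H591R3.PHG

open Pool.Agent.H9x.RT (ll lev HZ HZ_iff)
open Pool.Agent.H9x.SP (Sys Dt J orc base orc_on orc_off orc_free orc_loc tv tv_congr tv_true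
  tv_false tv_iff enc_inj2)

/-- the strings starting with a one are erased -/
def er (A : Oracle) : Oracle := fun q => match q with
  | true :: _ => false
  | q => A q

theorem er_true (A : Oracle) (u : List Bool) : er A (true :: u) = false := rfl

theorem er_false (A : Oracle) (u : List Bool) : er A (false :: u) = A (false :: u) := rfl

theorem er_nil (A : Oracle) : er A [] = A [] := rfl

theorem er_congr {A A' : Oracle} {q : List Bool} (h : A q = A' q) : er A q = er A' q := by
  rcases q with _ | ⟨c, u⟩
  · exact h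
  · cases c
    · exact h
    · rfl

/-- the name of a code -/
def nam (e : ℕ) (x : List Bool) : List Bool := List.replicate e true ++ false :: x

theorem nam_inj {e e' : ℕ} {x x' : List Bool} (h : nam e x = nam e' x') : e = e' ∧ x = x' :=
  CC.rep_inj _ _ _ _ h

theorem nam_len (e : ℕ) (x : List Bool) : (nam e x).length = e + 1 + x.length := by
  unfold nam
  rw [List.length_append, List.length_replicate, List.length_cons]
  omega

/-- the ones in front and the first zero are removed -/
def strip : List Bool → List Bool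
  | [] => []
  | true :: v => strip v
  | false :: v => v

theorem strip_len : ∀ x : List Bool, (strip x).length ≤ x.length
  | [] => le_rfl
  | true :: v => (strip_len v).trans (by simp)
  | false :: v => by simp [strip]

theorem strip_rep (t : ℕ) (x : List Bool) : strip (List.replicate t true ++ false :: x) = x := by
  induction t with
  | zero => rfl
  | succ t ih => exact ih

/-- truth of a code -/
def AcN (qf : ℕ → QFamily) (S : ℕ → Polynomial ℕ) (c : ℕ × List Bool) (A : Oracle) : Prop :=
  if c.1 % 2 = 0 then CC.cut (lev S c) A (true :: nam c.1 c.2) = true else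
    1 / 2 < (qf (c.1 / 2)).acc (CC.cut (lev S c) (er A)) (strip c.2)

/-- the addresses of the blocks -/
def adN (ℓ : ℕ → ℕ) (S : ℕ → Polynomial ℕ) (c : ℕ × List Bool) (w : List Bool) : List Bool :=
  if c.1 % 4 = 0 then false :: true :: cS c.1 (lev S c) (c.2 ++ w)
  else false :: false :: false :: nam c.1 (enc (List.replicate (ℓ c.1) (64 * lev S c))
    (8 * lev S c) (cS c.1 (lev S c) (pairBits c.2 w)))

theorem adN_even {ℓ : ℕ → ℕ} {S : ℕ → Polynomial ℕ} {c : ℕ × List Bool} (h : c.1 % 4 = 0)
    (w : List Bool) : adN ℓ S c w = false :: true :: cS c.1 (lev S c) (c.2 ++ w) := if_pos h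

theorem adN_odd {ℓ : ℕ → ℕ} {S : ℕ → Polynomial ℕ} {c : ℕ × List Bool} (h : ¬ c.1 % 4 = 0)
    (w : List Bool) : adN ℓ S c w = false :: false :: false :: nam c.1
      (enc (List.replicate (ℓ c.1) (64 * lev S c)) (8 * lev S c)
        (cS c.1 (lev S c) (pairBits c.2 w))) := if_neg h

open Classical in
/-- the system of codes -/
noncomputable def sysN (ℓ : ℕ → ℕ) (qf : ℕ → QFamily) (S : ℕ → Polynomial ℕ) : Sys where
  K := ℕ × List Bool
  dK := inferInstance
  lev := lev S
  ac := AcN qf S
  loc := by
    intro c A A' h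
    have h1 : CC.cut (lev S c) A = CC.cut (lev S c) A' := by
      funext z
      unfold CC.cut
      split_ifs with hz
      · exact h z hz
      · rfl
    have h2 : CC.cut (lev S c) (er A) = CC.cut (lev S c) (er A') := by
      funext z
      unfold CC.cut
      split_ifs with hz
      · exact er_congr (h z hz)
      · rfl
    unfold AcN
    rw [h1, h2]
  adr := adN ℓ S
  ok := fun c w => c.1 % 4 = 0 → w.length = ll (lev S c) + 1
  inj := by
    rintro ⟨e, x⟩ w ⟨e', x'⟩ w' hw hw' h
    by_cases he : e % 4 = 0
    · by_cases he' : e' % 4 = 0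
      · rw [adN_even (c := (e, x)) he, adN_even (c := (e', x')) he'] at h
        simp only [List.cons.injEq, true_and] at h
        obtain ⟨h1, h2, h3⟩ := cS_inj h
        subst h1
        have h4 : w.length = w'.length := by rw [hw he, hw' he', h2]
        obtain ⟨h5, h6⟩ := List.append_inj' h3 h4
        subst h5
        exact ⟨rfl, h6⟩
      · rw [adN_even (c := (e, x)) he, adN_odd (c := (e', x')) he'] at h
        simp at h
    · by_cases he' : e' % 4 = 0
      · rw [adN_odd (c := (e, x)) he, adN_even (c := (e', x')) he'] at h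
        simp at h
      · rw [adN_odd (c := (e, x)) he, adN_odd (c := (e', x')) he'] at h
        simp only [List.cons.injEq, true_and] at h
        obtain ⟨h0, h⟩ := nam_inj h
        subst h0
        obtain ⟨_, _, h3⟩ := enc_inj2 (by simp) h
        obtain ⟨h4, _, h6⟩ := cS_inj h3
        have h7 := congrArg unpair h6
        rw [unpair_pairBits, unpair_pairBits] at h7
        simp only [Prod.mk.injEq] at h7
        rw [h7.1, h7.2]
        exact ⟨rfl, rfl⟩
  lt := by
    intro c w
    by_cases he : c.1 % 4 = 0
    · rw [adN_even he, List.length_cons, List.length_cons, length_cS]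
      omega
    · rw [adN_odd he, List.length_cons, List.length_cons, List.length_cons, nam_len,
        enc_len, length_cS]
      omega
  nf := by
    intro c w u
    by_cases he : c.1 % 4 = 0
    · rw [adN_even he]
      simp
    · rw [adN_odd he]
      simp
  b0 := fun q => match q with
    | false :: false :: v => decide (HZ v)
    | _ => false

variable {ℓ : ℕ → ℕ} {qf : ℕ → QFamily} {S : ℕ → Polynomial ℕ}

/-- the bounds of the levels -/
structure Kn (qf : ℕ → QFamily) (S R : ℕ → Polynomial ℕ) : Prop where
  big : ∀ e n, n + e + 6 ≤ (S e).eval n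
  ev : ∀ e n, e % 2 = 0 → (S e).eval n = n + e + 6
  len : ∀ i n, ((qf i).circ n).length ≤ (R i).eval n
  sh : ∀ i n, Short ((R i).eval n) ((qf i).circ n)
  od : ∀ e n, ¬ e % 2 = 0 → 144 * (R (e / 2)).eval n ^ 2 * ((R (e / 2)).eval n + 1) ≤ (S e).eval n ∧
    (e + 1) ^ 4 ≤ (S e).eval n ∧ (R (e / 2)).eval n ≤ (S e).eval n

theorem exists_kn (qf : ℕ → QFamily) : ∃ S R : ℕ → Polynomial ℕ, Kn qf S R := by
  choose R hR using fun i => (qf i).size
  refine ⟨fun e => if e % 2 = 0 then Polynomial.X + Polynomial.C (e + 6) else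
    Polynomial.C 144 * R (e / 2) ^ 2 * (R (e / 2) + Polynomial.C 1) + Polynomial.C ((e + 1) ^ 4) +
      R (e / 2) + Polynomial.X + Polynomial.C (e + 6), R, ?_, ?_, fun i n => (hR i n).1,
      fun i n => (hR i n).2, ?_⟩
  · intro e n
    show _ ≤ Polynomial.eval n (if e % 2 = 0 then _ else _)
    split_ifs with h
    · simp
      omega
    · simp only [Polynomial.eval_add, Polynomial.eval_mul, Polynomial.eval_pow, Polynomial.eval_C,
        Polynomial.eval_X]
      omega
  · intro e n h
    show Polynomial.eval n (if e % 2 = 0 then _ else _) = _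
    rw [if_pos h]
    simp
    omega
  · intro e n h
    show _ ≤ Polynomial.eval n (if e % 2 = 0 then _ else _) ∧
      _ ≤ Polynomial.eval n (if e % 2 = 0 then _ else _) ∧
      _ ≤ Polynomial.eval n (if e % 2 = 0 then _ else _)
    rw [if_neg h]
    simp only [Polynomial.eval_add, Polynomial.eval_mul, Polynomial.eval_pow, Polynomial.eval_C,
        Polynomial.eval_X]
    refine ⟨by omega, by omega, by omega⟩

/-- truth of the hidden codes -/
theorem tv_even {R : ℕ → Polynomial ℕ} (hK : Kn qf S R) (D : Dt (sysN ℓ qf S).K) {c : ℕ × List Bool}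
    (h : c.1 % 2 = 0) : tv (sysN ℓ qf S) c (orc (sysN ℓ qf S) D) = D.fr (nam c.1 c.2) := by
  have h1 : (sysN ℓ qf S).ac c (orc (sysN ℓ qf S) D) ↔ D.fr (nam c.1 c.2) = true := by
    show AcN qf S c _ ↔ _
    unfold AcN
    rw [if_pos h]
    unfold CC.cut
    rw [if_pos, orc_free]
    rw [List.length_cons, nam_len]
    have := hK.big c.1 c.2.length
    show _ ≤ (S c.1).eval c.2.length
    omega
  rw [Bool.eq_iff_iff, tv_iff]
  exact h1

/-- truth of the codes of the quantum families -/
theorem tv_odd {R : ℕ → Polynomial ℕ} (hK : Kn qf S R) (A : Oracle) {c : ℕ × List Bool}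
    (h : ¬ c.1 % 2 = 0) : tv (sysN ℓ qf S) c A = true ↔ 1 / 2 < (qf (c.1 / 2)).acc (er A) (strip c.2) := by
  rw [tv_iff]
  show AcN qf S c _ ↔ _
  unfold AcN
  rw [if_neg h]
  have h1 : (qf (c.1 / 2)).acc (CC.cut (lev S c) (er A)) (strip c.2) =
      (qf (c.1 / 2)).acc (er A) (strip c.2) := by
    unfold QFamily.acc
    refine prob_congr (B := (R (c.1 / 2)).eval (strip c.2).length) (fun y hy => ?_) _
      (hK.sh _ _) _ _
    unfold CC.cut
    rw [if_pos]
    refine hy.trans ((eval_mono _ (strip_len _)).trans ?_)
    exact (hK.od c.1 c.2.length h).2.2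
  rw [h1]

end Pool.Agent.H9x.SN
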