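import Pool.Agent.H9x.SN.Stg

/-!
# The world
-/

set_option autoImplicit false
set_option linter.unusedSectionVars false

namespace Pool.Agent.H9x.SN

open Finset Pool.Agent.NPC Pool.Agent.H622R2 Pool.Agent.H620R2.Gauge Pool.Agent.H622R2.Exp
  Pool.Agent.TH678.ETH Pool.Agent.TH678.SETH Pool.Agent.TH678.RS Pool.Agent.H9x.Q Filter
  Pool.Agent.H591R3.PHG

open Pool.Agent.H9x.V1 (poly_rep poly_cS)
open Pool.Agent.H9x.RT (ll lev HZ HZ_iff FoC FoC_enc Yes No FoA cpy ll_eval circ poly_circ prob_eq
  abs_Fo_le orth_Hm Fo Hm)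
open Pool.Agent.H9x.SP (Sys Dt orc orc_on orc_off orc_loc tv tv_iff Blk Fools LB sval sval_senc
  exists_for exists_sipB isSig_of_lang mem_lang_fold fold_sval enc_app rep quant_rep poly_repl)

/-- **A quantum family which distinguishes large from small forrelations.** -/
theorem fam_of_fo {A : Oracle} (pre ppre : List Bool → List Bool)
    (l : Polynomial ℕ)
    (hpre : Poly fun u : List Bool => pre u) (hppre : Poly fun u : List Bool => ppre u)
    (hpre' : ∀ u v : List Bool, u.length = v.length → pre u = pre v)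
    (hppre' : ∀ u v : List Bool, u.length = v.length → ppre u = ppre v)
    (hl1 : ∀ n, 1 ≤ l.eval n)
    (hA : ∀ (x : List Bool) (k : ℕ) (u : Fin (k * l.eval x.length) → Bool),
      A (ppre x ++ List.ofFn u) = true ↔ ∃ j, cpy u j = fun _ => false) :
    ∃ F : QFamily, ∀ x : List Bool,
      (1 / (64 * ((l.eval x.length : ℕ) : ℝ)) ≤ FoA A (pre x ++ x) (l.eval x.length) →
        2 / 3 ≤ F.acc A x) ∧
      (|FoA A (pre x ++ x) (l.eval x.length)| ≤ 1 / (256 * ((l.eval x.length : ℕ) : ℝ)) →
        F.acc A x ≤ 1 / 3) := by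
  set k : Polynomial ℕ := Polynomial.C 8192 * l ^ 2 with hk
  have hke : ∀ n, k.eval n = 8192 * (l.eval n) ^ 2 := fun n => by
    rw [hk]; simp
  have hlen : UPoly (fun u : List Bool => u.length) := UPoly.length Poly.id
  refine ⟨⟨fun n => circ n (pre (List.replicate n false)) (ppre (List.replicate n false))
    (l.eval n) (k.eval n), ?_, Polynomial.C 4 + k * l⟩, fun x => ?_⟩
  · refine polyTime_bits (poly_circ hlen ?_ ?_ (hlen.eval l) (hlen.eval k))
    · exact hpre.congr fun u => hpre' _ _ (by simp)
    · exact hppre.congr fun u => hppre' _ _ (by simp)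
  · set n := x.length with hn
    have hacc : QFamily.acc ⟨fun n => circ n (pre (List.replicate n false))
        (ppre (List.replicate n false)) (l.eval n) (k.eval n),
        polyTime_bits (poly_circ hlen (hpre.congr fun u => hpre' _ _ (by simp))
          (hppre.congr fun u => hppre' _ _ (by simp)) (hlen.eval l) (hlen.eval k)),
        Polynomial.C 4 + k * l⟩ A x = 1 - (1 - FoA A (pre x ++ x) (l.eval n) ^ 2) ^ (k.eval n) := by
      unfold QFamily.acc
      simp only
      rw [← hn, hpre' (List.replicate n false) x (by simp [hn]),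
        hppre' (List.replicate n false) x (by simp [hn])]
      have hm : n + 1 + (Polynomial.C 4 + k * l).eval n = n + 5 + k.eval n * l.eval n := by
        simp only [Polynomial.eval_add, Polynomial.eval_C, Polynomial.eval_mul]
        ring
      rw [hm, prob_eq hn.symm A (pre x) (ppre x) (hA x (k.eval n))]
      unfold FoA
      simp only [List.append_assoc]
      rfl
    have hl0 : (1 : ℝ) ≤ ((l.eval n : ℕ) : ℝ) := by exact_mod_cast hl1 n
    have hkr : ((k.eval n : ℕ) : ℝ) = 8192 * ((l.eval n : ℕ) : ℝ) ^ 2 := by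
      rw [hke]; push_cast; ring
    have habs : |FoA A (pre x ++ x) (l.eval n)| ≤ 1 := abs_Fo_le (orth_Hm _) _
    set φ := FoA A (pre x ++ x) (l.eval n) with hφ
    have hsq1 : φ ^ 2 ≤ 1 := by
      rw [← sq_abs]
      exact pow_le_one₀ (abs_nonneg _) habs
    constructor
    · intro h1
      refine le_trans ?_ (le_of_eq hacc.symm)
      have h2 : (1 / (64 * ((l.eval n : ℕ) : ℝ))) ^ 2 ≤ φ ^ 2 :=
        pow_le_pow_left₀ (by positivity) h1 2
      have h3 : (1 - φ ^ 2) ^ (k.eval n) ≤ Real.exp (-2) := by
        have h4 : 1 - φ ^ 2 ≤ Real.exp (-φ ^ 2) := by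
          have := Real.add_one_le_exp (-φ ^ 2)
          linarith
        calc (1 - φ ^ 2) ^ (k.eval n) ≤ Real.exp (-φ ^ 2) ^ (k.eval n) :=
              pow_le_pow_left₀ (by linarith) h4 _
          _ = Real.exp (((k.eval n : ℕ) : ℝ) * (-φ ^ 2)) := by rw [← Real.exp_nat_mul]
          _ ≤ Real.exp (-2) := by
              apply Real.exp_le_exp.2
              rw [hkr]
              have h5 : 8192 * ((l.eval n : ℕ) : ℝ) ^ 2 * (1 / (64 * ((l.eval n : ℕ) : ℝ))) ^ 2 = 2 := by
                field_simp
                norm_num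
              nlinarith [mul_le_mul_of_nonneg_left h2
                (by positivity : (0 : ℝ) ≤ 8192 * ((l.eval n : ℕ) : ℝ) ^ 2)]
      have h6 : Real.exp (-2) ≤ 1 / 3 := by
        rw [Real.exp_neg, inv_eq_one_div]
        refine one_div_le_one_div_of_le (by norm_num) ?_
        have := Real.add_one_le_exp (2 : ℝ)
        linarith
      linarith
    · intro h1
      refine le_trans (le_of_eq hacc) ?_
      have h2 : φ ^ 2 ≤ (1 / (256 * ((l.eval n : ℕ) : ℝ))) ^ 2 := by
        rw [← sq_abs]
        exact pow_le_pow_left₀ (abs_nonneg _) h1 2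
      have h3 : 1 - ((k.eval n : ℕ) : ℝ) * φ ^ 2 ≤ (1 - φ ^ 2) ^ (k.eval n) := by
        have := one_add_mul_le_pow (a := -φ ^ 2) (by linarith) (k.eval n)
        have e : (1 + -φ ^ 2) = 1 - φ ^ 2 := by ring
        rw [e] at this
        linarith
      have h4 : ((k.eval n : ℕ) : ℝ) * φ ^ 2 ≤ 1 / 8 := by
        rw [hkr]
        have h5 : 8192 * ((l.eval n : ℕ) : ℝ) ^ 2 * (1 / (256 * ((l.eval n : ℕ) : ℝ))) ^ 2 = 1 / 8 := by
          field_simp
          norm_num
        calc 8192 * ((l.eval n : ℕ) : ℝ) ^ 2 * φ ^ 2 ≤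
            8192 * ((l.eval n : ℕ) : ℝ) ^ 2 * (1 / (256 * ((l.eval n : ℕ) : ℝ))) ^ 2 :=
              mul_le_mul_of_nonneg_left h2 (by positivity)
          _ = 1 / 8 := h5
      linarith


variable {ℓ : ℕ → ℕ} {qf : ℕ → QFamily} {S R : ℕ → Polynomial ℕ}

/-- the prefix of the strings about the zero string -/
theorem base_HZN (D : Dt (sysN ℓ qf S).K) {l m : ℕ} (hl : 1 ≤ l) (u : Fin (m * l) → Bool) :
    er (orc (sysN ℓ qf S) D) ((false :: false :: (List.replicate l true ++ [false])) ++
      List.ofFn u) = true ↔ ∃ j, cpy u j = fun _ => false := by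
  obtain ⟨l, rfl⟩ : ∃ l', l = l' + 1 := ⟨l - 1, by omega⟩
  have h1 : (false :: false :: (List.replicate (l + 1) true ++ [false])) ++ List.ofFn u =
      false :: false :: (List.replicate (l + 1) true ++ false :: List.ofFn u) := by simp
  rw [h1, er_false, orc_off D (fun c w _ h => by
    by_cases he : c.1 % 4 = 0
    · rw [show (sysN ℓ qf S).adr c w = adN ℓ S c w from rfl, adN_even he] at h
      simp at h
    · rw [show (sysN ℓ qf S).adr c w = adN ℓ S c w from rfl, adN_odd he,
        List.replicate_succ] at h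
      simp at h)]
  show @decide (HZ _) (Classical.propDecidable _) = true ↔ _
  exact (@decide_eq_true_iff _ (Classical.propDecidable _)).trans (HZ_iff hl u)

/-- the content of the block with the name `z` -/
def blkN (A : Oracle) (z : List Bool) : List Bool → Bool := fun w =>
  A (false :: true :: (List.replicate (z.length + 6) true ++ false :: (z ++ w)))

/-- **Quantum families for the blocks.** -/
theorem fam_rho (D : Dt (sysN ℓ qf S).K) (ρ : List Bool) : ∃ F : QFamily, ∀ x : List Bool,
    (Yes ((ρ ++ x).length + 5) (blkN (er (orc (sysN ℓ qf S) D)) (ρ ++ x)) →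
      2 / 3 ≤ F.acc (er (orc (sysN ℓ qf S) D)) x) ∧
    (No ((ρ ++ x).length + 5) (blkN (er (orc (sysN ℓ qf S) D)) (ρ ++ x)) →
      F.acc (er (orc (sysN ℓ qf S) D)) x ≤ 1 / 3) := by
  have hlen : UPoly (fun u : List Bool => u.length) := UPoly.length Poly.id
  set q : Polynomial ℕ := Polynomial.X + Polynomial.C (ρ.length + 5) with hq
  set q' : Polynomial ℕ := Polynomial.X + Polynomial.C (ρ.length + 6) with hq'
  set l : Polynomial ℕ := Polynomial.C 8 * q + Polynomial.C 40 with hl
  have hll : ∀ n, l.eval n = ll (n + ρ.length + 5) := fun n => by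
    rw [hl, ll_eval, hq]
    simp only [Polynomial.eval_add, Polynomial.eval_X, Polynomial.eval_C]
    congr 1
  have hq'e : ∀ n, q'.eval n = n + ρ.length + 6 := fun n => by
    rw [hq']
    simp only [Polynomial.eval_add, Polynomial.eval_X, Polynomial.eval_C]
    omega
  obtain ⟨F, hF⟩ := fam_of_fo (A := er (orc (sysN ℓ qf S) D))
    (fun u => false :: true :: (List.replicate (q'.eval u.length) true ++ false :: ρ))
    (fun u => false :: false :: (List.replicate (l.eval u.length) true ++ [false])) l
    (Poly.cons (NPC.Poly.const _) (Poly.cons (NPC.Poly.const _)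
      (Poly.append (poly_rep (hlen.eval q')) (NPC.Poly.const _))))
    (Poly.cons (NPC.Poly.const _) (Poly.cons (NPC.Poly.const _)
      (Poly.append (poly_rep (hlen.eval l)) (NPC.Poly.const [false]))))
    (fun u v huv => by simp only [huv]) (fun u v huv => by simp only [huv])
    (fun n => by rw [hll]; unfold ll; omega)
    (fun x k u => base_HZN D (by rw [hll]; unfold ll; omega) u)
  refine ⟨F, fun x => ?_⟩
  have hxl : (ρ ++ x).length + 5 = x.length + ρ.length + 5 := by
    rw [List.length_append]
    omega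
  have hfo : FoA (er (orc (sysN ℓ qf S) D)) ((false :: true ::
      (List.replicate (q'.eval x.length) true ++ false :: ρ)) ++ x) (l.eval x.length) =
      FoC (blkN (er (orc (sysN ℓ qf S) D)) (ρ ++ x)) (ll ((ρ ++ x).length + 5)) := by
    have hval : ∀ w : List Bool, er (orc (sysN ℓ qf S) D) (((false :: true ::
        (List.replicate (q'.eval x.length) true ++ false :: ρ)) ++ x) ++ w) =
        blkN (er (orc (sysN ℓ qf S) D)) (ρ ++ x) w := by
      intro w
      have h1 : q'.eval x.length = (ρ ++ x).length + 6 := by rw [hq'e]; omega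
      unfold blkN
      rw [h1]
      congr 1
      simp
    rw [hxl, hll]
    unfold FoA FoC
    simp only [hval]
  have h1 := hF x
  simp only [hfo] at h1
  have h2 : l.eval x.length = ll ((ρ ++ x).length + 5) := by rw [hll, hxl]
  rw [h2] at h1
  exact h1

theorem blk_val (hK : Kn qf S R) (D : Dt (sysN ℓ qf S).K) {e : ℕ} (he : e % 4 = 0)
    (y w : List Bool) (hw : w.length = ll (lev S (e, y)) + 1) :
    blkN (er (orc (sysN ℓ qf S) D)) (nam e y) w = D.bl (e, y) (D.fr (nam e y)) w := by
  have h1 : lev S (e, y) + 1 = (nam e y).length + 6 := by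
    rw [nam_len]
    show (S e).eval y.length + 1 = _
    rw [hK.ev e y.length (by omega)]
    omega
  unfold blkN
  rw [er_false]
  have h2 : false :: true :: (List.replicate ((nam e y).length + 6) true ++
      false :: (nam e y ++ w)) = (sysN ℓ qf S).adr (e, y) w := by
    show _ = adN ℓ S (e, y) w
    rw [adN_even he, ← h1]
    show _ = false :: true :: cS e (lev S (e, y)) (y ++ w)
    unfold cS pr nam
    simp
  rw [h2, orc_on D (show (sysN ℓ qf S).ok (e, y) w from fun _ => hw)]
  show D.bl (e, y) (tv (sysN ℓ qf S) (e, y) (orc (sysN ℓ qf S) D)) w = _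
  rw [tv_even hK D (c := (e, y)) (show e % 2 = 0 by omega)]

theorem foc_blk (hK : Kn qf S R) (D : Dt (sysN ℓ qf S).K) {e : ℕ} (he : e % 4 = 0)
    (y : List Bool) : (nam e y).length + 5 = lev S (e, y) ∧
    FoC (blkN (er (orc (sysN ℓ qf S) D)) (nam e y)) (ll (lev S (e, y))) =
      FoC (D.bl (e, y) (D.fr (nam e y))) (ll (lev S (e, y))) := by
  constructor
  · rw [nam_len]
    show _ = (S e).eval y.length
    rw [hK.ev e y.length (by omega)]
    omega
  · have h1 : ∀ (c : Bool) (v : Fin (ll (lev S (e, y))) → Bool),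
        blkN (er (orc (sysN ℓ qf S) D)) (nam e y) (c :: List.ofFn v) =
          D.bl (e, y) (D.fr (nam e y)) (c :: List.ofFn v) := fun c v =>
      blk_val hK D he y _ (by rw [List.length_cons, List.length_ofFn])
    unfold FoC
    simp only [h1]

/-- the hidden bits are found by quantum families -/
theorem acc_of_fr (hK : Kn qf S R) {Bk : ℕ × List Bool → Blk} (hB : BkN ℓ S Bk)
    {D : Dt (sysN ℓ qf S).K} {F : QFamily} {ρ : List Bool} (hF : ∀ x : List Bool,
      (Yes ((ρ ++ x).length + 5) (blkN (er (orc (sysN ℓ qf S) D)) (ρ ++ x)) →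
        2 / 3 ≤ F.acc (er (orc (sysN ℓ qf S) D)) x) ∧
      (No ((ρ ++ x).length + 5) (blkN (er (orc (sysN ℓ qf S) D)) (ρ ++ x)) →
        F.acc (er (orc (sysN ℓ qf S) D)) x ≤ 1 / 3)) {e : ℕ} (he : e % 4 = 0) {x y : List Bool}
    (hxy : ρ ++ x = nam e y) (hg : GC Bk (e, y) (D.bl (e, y))) :
    (D.fr (nam e y) = true → 2 / 3 ≤ F.acc (er (orc (sysN ℓ qf S) D)) x) ∧
    (D.fr (nam e y) = false → F.acc (er (orc (sysN ℓ qf S) D)) x ≤ 1 / 3) := by
  obtain ⟨h1, h2⟩ := foc_blk hK D he y
  have h3 := hF x
  rw [hxy, h1] at h3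
  constructor
  · intro h4
    refine h3.1 ?_
    show _ ≤ FoC _ _
    rw [h2, h4]
    exact hB.yes (e, y) he _ hg.1
  · intro h4
    refine h3.2 ?_
    show |FoC _ _| ≤ _
    rw [h2, h4]
    exact hB.no (e, y) he _ hg.2

theorem nam_append (e t : ℕ) (x : List Bool) : nam e (List.replicate t true) ++ x =
    nam e (List.replicate t true ++ x) := by
  unfold nam
  simp

/-- **Languages given by trees are in the hierarchy.** -/
theorem sig_core {D : Dt (sysN ℓ qf S).K} {e j t : ℕ} (he4 : ¬ e % 4 = 0) (hj : ℓ e = j + 1)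
    (a : List Bool → List Bool) (hpa : Poly a) (hal : ∀ x, (a x).length = x.length + t)
    {L : Set (List Bool)} (hL : ∀ x, x ∈ L ↔ sval (lev S (e, a x)) j
      (D.bl (e, a x) (tv (sysN ℓ qf S) (e, a x) (orc (sysN ℓ qf S) D))) = false) :
    IsSig (er (orc (sysN ℓ qf S) D)) (j + 1) L := by
  set q : Polynomial ℕ := (S e).comp (Polynomial.X + Polynomial.C t) with hq
  have hqe : ∀ x : List Bool, q.eval x.length = lev S (e, a x) := fun x => by
    rw [hq]
    show _ = (S e).eval (a x).length
    rw [hal]
    simp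
  have hlen : UPoly (fun u : List Bool => u.length) := UPoly.length Poly.id
  have hqU : UPoly (fun u : List Bool => q.eval u.length) := hlen.eval q
  set r : List Bool → List Bool := fun x => enc (List.replicate (j + 1) (64 * q.eval x.length))
    (8 * q.eval x.length) (cS e (q.eval x.length) (pairBits (a x) [])) with hr
  have hrl : ∀ x, (r x).length = 2 * ((j + 1) * (64 * q.eval x.length)) + (j + 1) +
      2 * (8 * q.eval x.length) + 1 + (q.eval x.length + 1 + 1 +
        (e + 1 + (2 * (x.length + t) + 1))) := by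
    intro x
    rw [hr]
    simp only
    rw [enc_len, length_cS, length_pairBits, hal]
    simp
  have he8 : ∀ n, (Polynomial.C 8 * q).eval n = 8 * q.eval n := fun n => by simp
  have he64 : ∀ n, (Polynomial.C 64 * q).eval n = 64 * q.eval n := fun n => by simp
  have hpr : Poly r := by
    have h1 : ∀ j' : ℕ, Poly (fun x : List Bool => enc (List.replicate j'
        (64 * q.eval x.length)) (8 * q.eval x.length)
        (cS e (q.eval x.length) (pairBits (a x) []))) := by
      intro j'
      induction j' with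
      | zero =>
        exact poly_pairBits ((poly_rep (hlen.eval (Polynomial.C 8 * q))).congr fun x => by
          simp only [he8]) (poly_cS e hqU (poly_pairBits hpa (NPC.Poly.const [])))
      | succ j' ih =>
        have h2 : ∀ x : List Bool, enc (List.replicate (j' + 1) (64 * q.eval x.length))
            (8 * q.eval x.length) (cS e (q.eval x.length) (pairBits (a x) [])) =
            pairBits (List.replicate (64 * q.eval x.length) true)
              (enc (List.replicate j' (64 * q.eval x.length)) (8 * q.eval x.length)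
                (cS e (q.eval x.length) (pairBits (a x) []))) := by
          intro x
          rw [List.replicate_succ', LangTrAux.enc_append]
        have h3 : Poly (fun x : List Bool => List.replicate (64 * q.eval x.length) true) :=
          (poly_rep (hlen.eval (Polynomial.C 64 * q))).congr fun x => by simp only [he64]
        exact (poly_pairBits h3 ih).congr fun x => (h2 x).symm
    exact h1 (j + 1)
  refine isSig_of_lang (false :: false :: false :: nam e []) r hpr
    (Polynomial.C 2 * (Polynomial.C (j + 1) * (Polynomial.C 64 * q)) + Polynomial.C (j + 1) +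
      Polynomial.C 2 * (Polynomial.C 8 * q) + Polynomial.C 1 + (q + Polynomial.C 1 +
      Polynomial.C 1 + (Polynomial.C (e + 1) + (Polynomial.C 2 * (Polynomial.X +
        Polynomial.C t) + Polynomial.C 1))))
    (fun x => ?_) (fun x => ?_)
  · rw [hrl]
    simp only [Polynomial.eval_add, Polynomial.eval_mul, Polynomial.eval_C, Polynomial.eval_X]
    exact le_rfl
  · set c : ℕ × List Bool := (e, a x) with hc
    rw [hr]
    simp only
    rw [mem_lang_fold _ j _ (by simp), fold_sval]
    have hcont : (fun v => (fun q => er (orc (sysN ℓ qf S) D) ((false :: false :: false ::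
        nam e []) ++ q)) (enc (List.replicate (j + 1) (64 * q.eval x.length))
          (8 * q.eval x.length) (cS e (q.eval x.length) (pairBits (a x) [])) ++ v)) =
        D.bl c (tv (sysN ℓ qf S) c (orc (sysN ℓ qf S) D)) := by
      funext v
      rw [← orc_on D (show (sysN ℓ qf S).ok c v from fun h => absurd h he4)]
      show _ = orc (sysN ℓ qf S) D (adN ℓ S c v)
      rw [adN_odd (c := c) he4, hqe]
      show orc (sysN ℓ qf S) D _ = _
      congr 1
      rw [enc_app]
      have h1 : cS e (lev S (e, a x)) (pairBits (a x) []) ++ v =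
          cS e (lev S (e, a x)) (pairBits (a x) v) := by
        simp [cS, pr, pairBits]
      rw [h1]
      show _ = false :: false :: false :: nam e (enc (List.replicate (ℓ e)
        (64 * lev S (e, a x))) (8 * lev S (e, a x)) (cS e (lev S (e, a x)) (pairBits (a x) v)))
      rw [hj]
      unfold nam
      simp
    rw [hcont, hL, hqe]

/-- **The quantum families without promise are in the hierarchy.** -/
theorem sig_of_bnd (hK : Kn qf S R) {Bk : ℕ × List Bool → Blk} (hB : BkN ℓ S Bk)
    {D : Dt (sysN ℓ qf S).K} {i j t : ℕ} (hj : ℓ (2 * i + 1) = j + 1)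
    (hg : ∀ c : ℕ × List Bool, c.1 = 2 * i + 1 → t ≤ lev S c →
      GC Bk c (D.bl c)) {L : Set (List Bool)} (hL : ∀ x, x ∈ L ↔
        1 / 2 < (qf i).acc (er (orc (sysN ℓ qf S) D)) x) :
    IsSig (er (orc (sysN ℓ qf S) D)) (j + 1) L := by
  have he2 : ¬ (2 * i + 1) % 2 = 0 := by omega
  have hei : (2 * i + 1) / 2 = i := by omega
  have hal : ∀ x : List Bool, (List.replicate t true ++ false :: x).length =
      x.length + (t + 1) := fun x => by
    simp only [List.length_append, List.length_replicate, List.length_cons]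
    omega
  refine sig_core (e := 2 * i + 1) (by omega) hj (fun x => List.replicate t true ++ false :: x)
    (Poly.append (NPC.Poly.const _) (Poly.cons (NPC.Poly.const _) Poly.id)) hal fun x => ?_
  set c : ℕ × List Bool := (2 * i + 1, List.replicate t true ++ false :: x) with hc
  have hstrip : strip c.2 = x := strip_rep t x
  have htv : tv (sysN ℓ qf S) c (orc (sysN ℓ qf S) D) = true ↔ x ∈ L := by
    rw [tv_odd hK _ (c := c) he2, hstrip, hL]
    show 1 / 2 < (qf ((2 * i + 1) / 2)).acc _ x ↔ _
    rw [hei]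
  have h1 : t ≤ lev S c := by
    have h2 := hK.big (2 * i + 1) (List.replicate t true ++ false :: x).length
    have h3 := hal x
    show t ≤ (S (2 * i + 1)).eval (List.replicate t true ++ false :: x).length
    omega
  have h2 := hg c rfl h1
  have h3 : ∀ b, (Bk c).good b (D.bl c b) := fun b => by
    cases b
    · exact h2.2
    · exact h2.1
  rw [← htv, hB.sip c (show ¬ (2 * i + 1) % 4 = 0 by omega) j hj _ _
    (h3 (tv (sysN ℓ qf S) c (orc (sysN ℓ qf S) D)))]
  cases tv (sysN ℓ qf S) c (orc (sysN ℓ qf S) D) <;> simp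

/-- **The quantum families without promise are in polynomial time.** -/
theorem p_of_bnd (hK : Kn qf S R) {Bk : ℕ × List Bool → Blk} (hB : BkN ℓ S Bk)
    {D : Dt (sysN ℓ qf S).K} {i t : ℕ} (hj : ℓ (2 * i + 1) = 0) (hg : ∀ c : ℕ × List Bool,
      c.1 = 2 * i + 1 → t ≤ lev S c → GC Bk c (D.bl c)) {L : Set (List Bool)} (hL : ∀ x, x ∈ L ↔
        1 / 2 < (qf i).acc (er (orc (sysN ℓ qf S) D)) x) :
    IsP (er (orc (sysN ℓ qf S) D)) L := by
  set e : ℕ := 2 * i + 1 with he
  have he4 : ¬ e % 4 = 0 := by omega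
  have he2 : ¬ e % 2 = 0 := by omega
  have hei : e / 2 = i := by omega
  set a : List Bool → List Bool := fun x => List.replicate t true ++ false :: x with ha
  have hal : ∀ x, (a x).length = x.length + (t + 1) := fun x => by
    rw [ha]
    simp only [List.length_append, List.length_replicate, List.length_cons]
    omega
  set q : Polynomial ℕ := (S e).comp (Polynomial.X + Polynomial.C (t + 1)) with hq
  have hqe : ∀ x : List Bool, q.eval x.length = lev S (e, a x) := fun x => by
    rw [hq]
    show _ = (S e).eval (a x).length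
    rw [hal]
    simp
  have hlen : UPoly (fun u : List Bool => u.length) := UPoly.length Poly.id
  have hqU : UPoly (fun u : List Bool => q.eval u.length) := hlen.eval q
  have hpa : Poly a := Poly.append (NPC.Poly.const _) (Poly.cons (NPC.Poly.const _) Poly.id)
  have he8 : ∀ n, (Polynomial.C 8 * q).eval n = 8 * q.eval n := fun n => by simp
  have h1 : Poly (fun x : List Bool => enc [] (8 * q.eval x.length)
      (cS e (q.eval x.length) (pairBits (a x) []))) :=
    poly_pairBits ((poly_rep (hlen.eval (Polynomial.C 8 * q))).congr fun x => by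
      simp only [he8]) (poly_cS e hqU (poly_pairBits hpa (NPC.Poly.const [])))
  have h2 : Poly (fun x : List Bool => false :: false :: false :: nam e
      (enc [] (8 * q.eval x.length) (cS e (q.eval x.length) (pairBits (a x) [])))) :=
    Poly.cons (NPC.Poly.const _) (Poly.cons (NPC.Poly.const _) (Poly.cons (NPC.Poly.const _)
      (Poly.append (NPC.Poly.const _) (Poly.cons (NPC.Poly.const _) h1))))
  refine ⟨_, TH678.WP.isFP_ask' _ h2, fun x => ?_⟩
  simp only [List.cons.injEq, and_true]
  set c : ℕ × List Bool := (e, a x) with hc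
  have hstrip : strip c.2 = x := strip_rep t x
  have htv : tv (sysN ℓ qf S) c (orc (sysN ℓ qf S) D) = true ↔ x ∈ L := by
    rw [tv_odd hK _ (c := c) he2, hstrip, hL]
    show 1 / 2 < (qf (e / 2)).acc _ x ↔ _
    rw [hei]
  have hcont : er (orc (sysN ℓ qf S) D) (false :: false :: false :: nam e
      (enc [] (8 * q.eval x.length) (cS e (q.eval x.length) (pairBits (a x) [])))) =
      D.bl c (tv (sysN ℓ qf S) c (orc (sysN ℓ qf S) D)) [] := by
    rw [← orc_on D (show (sysN ℓ qf S).ok c [] from fun h => absurd h he4), hqe]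
    show _ = orc (sysN ℓ qf S) D (adN ℓ S c [])
    rw [adN_odd (c := c) he4]
    show orc (sysN ℓ qf S) D _ = orc (sysN ℓ qf S) D (false :: false :: false :: nam e
      (enc (List.replicate (ℓ e) (64 * lev S (e, a x))) (8 * lev S (e, a x))
        (cS e (lev S (e, a x)) (pairBits (a x) []))))
    rw [hj, List.replicate_zero]
  rw [hcont]
  have h3 : t ≤ lev S c := by
    have h2 := hK.big e (a x).length
    rw [hal] at h2
    show t ≤ (S e).eval (a x).length
    rw [hal]
    omega
  have h4 := hg c rfl h3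
  have h5 : ∀ b, (Bk c).good b (D.bl c b) := fun b => by
    cases b
    · exact h4.2
    · exact h4.1
  rw [hB.bit c he4 hj _ _
    (h5 (tv (sysN ℓ qf S) c (orc (sysN ℓ qf S) D)))]
  exact htv.symm

/-- the block of one bit -/
def bitB : Blk where
  I := Unit
  fI := inferInstance
  dI := inferInstance
  P := fun t z => if z () = t then 1 else 0
  nn := fun t z => by split_ifs <;> norm_num
  s1 := fun t => by
    rw [← (Equiv.funUnique Unit Bool).symm.sum_comp]
    cases t <;> simp
  enc := fun z w => if w = [] then z () else false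
  cls := fun v => by
    by_cases h : v = []
    · exact Or.inl ⟨(), fun z => if_pos h⟩
    · exact Or.inr fun z => if_neg h
  good := fun t V => V [] = t
  sup := fun t z h => by
    by_contra h2
    apply h
    rw [if_neg]
    exact h2

/-- blocks exist -/
theorem exists_bkN (hS : ∀ e n, n + e + 6 ≤ (S e).eval n) : ∃ Bk : ℕ × List Bool → Blk,
    BkN ℓ S Bk := by
  have h5 : ∀ c : ℕ × List Bool, 5 ≤ lev S c := fun c => by
    have := hS c.1 c.2.length
    show 5 ≤ (S c.1).eval c.2.length
    omega
  choose BF hBF1 hBF2 hBF3 using exists_for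
  choose BS hBS1 hBS2 using fun c : ℕ × List Bool => exists_sipB (h5 c) (ℓ c.1 - 1)
  set Bk : ℕ × List Bool → Blk := fun c : ℕ × List Bool =>
    if c.1 % 4 = 0 then BF (lev S c) else if ℓ c.1 = 0 then bitB else BS c with hBk
  have hBe : ∀ c : ℕ × List Bool, c.1 % 4 = 0 → Bk c = BF (lev S c) := fun c h => if_pos h
  have hBz : ∀ c : ℕ × List Bool, ¬ c.1 % 4 = 0 → ℓ c.1 = 0 → Bk c = bitB := fun c h h' => by
    show (if c.1 % 4 = 0 then _ else if _ then _ else _) = _
    rw [if_neg h, if_pos h']
  have hBo : ∀ c : ℕ × List Bool, ¬ c.1 % 4 = 0 → ∀ j, ℓ c.1 = j + 1 → Bk c = BS c :=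
    fun c h j h' => by
      show (if c.1 % 4 = 0 then _ else if _ then _ else _) = _
      rw [if_neg h, if_neg (by omega)]
  refine ⟨Bk, fun c h V hV => ?_, fun c h V hV => ?_, fun c h j hj t V hV => ?_,
    fun c h hj t V hV => ?_, fun c h k u N Λ hΛ => ?_, fun c h j hj u N Λ hu hΛ => ?_⟩
  · rw [hBe c h] at hV
    exact (hBF1 _ V).1 hV
  · rw [hBe c h] at hV
    exact (hBF2 _ V).1 hV
  · rw [hBo c h j hj] at hV
    have h1 := (hBS1 c t V).1 hV
    rw [hj] at h1
    exact h1
  · rw [hBz c h hj] at hV
    exact hV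
  · rw [hBe c h]
    exact hBF3 _ k u N Λ hΛ
  · rw [hBo c h j hj]
    have h1 : ℓ c.1 - 1 = j := by omega
    have h2 := hBS2 c u N Λ hu (by omega)
    rw [h1] at h2
    exact h2

theorem sig_le {A : Oracle} {L : Set (List Bool)} {a b : ℕ} (h : IsSig A a L) (hab : a ≤ b) :
    IsSig A b L := by
  induction hab with
  | refl => exact h
  | step _ ih => exact ih.succ

/-- **The world.** -/
theorem worldN (κ : ℕ∞) : ∃ A : Oracle, (∀ k, ∃ L, IsSig A (k + 1) L ∧ ¬ IsSig A k L) ∧
    (∀ L, IsBQP A L → IsPH A L) ∧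
    (∀ j : ℕ, (∀ L, IsBQP A L → IsSig A j L) ↔ κ ≤ j) ∧
    ∃ F : QFamily, ∀ L, IsPH A L →
      ∃ x, (2 / 3 ≤ F.acc A x ∧ x ∉ L) ∨ (F.acc A x ≤ 1 / 3 ∧ x ∈ L) := by
  have hne : Nonempty QFamily := ⟨⟨fun _ => [], by
    have h1 : (fun u : List Bool => bits ((fun _ : ℕ => ([] : List Gate)) u.length)) =
        fun _ => bits ([] : List Gate) := rfl
    rw [h1]
    exact CC.const_polyTime _, 0⟩⟩
  obtain ⟨qf, hqf⟩ := exists_surjective_nat QFamily
  obtain ⟨S, R, hK⟩ := exists_kn qf
  obtain ⟨f, hf1, hf2, hf3⟩ : ∃ f : ℕ → ℕ, (∀ e a : ℕ, ((a / 2 : ℕ) : ℕ∞) < κ → a ≤ e / 2 →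
      a / 2 < f e) ∧ (∀ e, f e ≤ e + 1) ∧ ∀ e, (f e : ℕ∞) ≤ κ := by
    induction κ using ENat.recTopCoe with
    | top => exact ⟨fun e => e / 4 + 1, fun e a _ h => by
        show a / 2 < e / 4 + 1
        omega, fun e => by
        show e / 4 + 1 ≤ e + 1
        omega, fun i => le_top⟩
    | coe n =>
      refine ⟨fun e => min (e / 4 + 1) n, fun e a h h' => ?_, fun e => ?_, fun e => ?_⟩
      · have h2 : a / 2 < n := by exact_mod_cast h
        show a / 2 < min (e / 4 + 1) n
        omega
      · show min (e / 4 + 1) n ≤ e + 1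
        omega
      · exact_mod_cast min_le_right (e / 4 + 1) n
  set ℓ : ℕ → ℕ := fun e => if e % 4 = 2 then e / 4 + 1 else f e with hℓ
  have hℓe : ∀ e, e % 4 = 2 → ℓ e = e / 4 + 1 := fun e h => if_pos h
  have hℓo : ∀ e, ¬ e % 2 = 0 → ℓ e = f e := fun e h => if_neg (by omega)
  have hℓ2 : ∀ e, ℓ e ≤ e + 1 := fun e => by
    show (if e % 4 = 2 then e / 4 + 1 else f e) ≤ e + 1
    split_ifs
    · omega
    · exact hf2 e
  obtain ⟨Bk, hB⟩ := exists_bkN (ℓ := ℓ) hK.big
  obtain ⟨D, th, al, h1, h2, h3⟩ := exists_lim (Lo := fun a => a % 2 = 0 ∧ ((a / 2 : ℕ) : ℕ∞) < κ)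
    hK hB (fun a ha e he hae => by rw [hℓo e he]; exact hf1 e a ha.2 hae) hℓ2 hℓe
  have hg : ∀ (k : ℕ) (x : List Bool), (k : ℕ∞) < κ →
      GC Bk (2 * (2 * k), List.replicate (th (2 * k)) true ++ x)
        (D.bl (2 * (2 * k), List.replicate (th (2 * k)) true ++ x)) := by
    intro k x hk
    have h6 : 2 * (2 * k) / 2 = 2 * k := by omega
    refine h1 _ ?_ (fun h => absurd (show 2 * (2 * k) % 2 = 0 by omega) h) fun _ => ?_
    · have h4 := hK.big (2 * (2 * k)) (List.replicate (th (2 * k)) true ++ x).length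
      have h5 : (List.replicate (th (2 * k)) true ++ x).length = th (2 * k) + x.length := by
        rw [List.length_append, List.length_replicate]
      show th (2 * (2 * k) / 2) ≤
        (S (2 * (2 * k))).eval (List.replicate (th (2 * k)) true ++ x).length
      rw [h6]
      omega
    · show (2 * (2 * k) / 2) % 2 = 0 ∧ ((2 * (2 * k) / 2 / 2 : ℕ) : ℕ∞) < κ
      have h7 : 2 * (2 * k) / 2 / 2 = k := by omega
      rw [h7]
      exact ⟨by omega, hk⟩
  have hup : ∀ L, IsBQP (er (orc (sysN ℓ qf S) D)) L → ∃ e, IsSig (er (orc (sysN ℓ qf S) D))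
      (f e) L := by
    intro L hL
    obtain ⟨F, hF⟩ := hL
    obtain ⟨i, rfl⟩ := hqf F
    have hb : Bnd (qf i) (er (orc (sysN ℓ qf S) D)) := fun x => by
      by_cases hx : x ∈ L
      · exact Or.inl ((hF x).1 hx)
      · exact Or.inr ((hF x).2 hx)
    have hal : al i := by
      by_contra h
      exact h2 i h hb
    have hgo : ∀ c : ℕ × List Bool, c.1 = 2 * i + 1 → th i ≤ lev S c → GC Bk c (D.bl c) := by
      intro c hc hc'
      have h4 : c.1 / 2 = i := by omega
      refine h1 c (by rw [h4]; exact hc') (fun _ => by rw [h4]; exact hal) fun h5 => ?_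
      exfalso
      omega
    have hL' : ∀ x, x ∈ L ↔ 1 / 2 < (qf i).acc (er (orc (sysN ℓ qf S) D)) x := by
      intro x
      constructor
      · intro hx
        have := (hF x).1 hx
        linarith
      · intro hx
        by_contra h
        have := (hF x).2 h
        linarith
    have hfe := hℓo (2 * i + 1) (by omega)
    refine ⟨2 * i + 1, ?_⟩
    rw [← hfe]
    rcases Nat.eq_zero_or_pos (ℓ (2 * i + 1)) with h4 | h4
    · rw [h4]
      exact IsSig.of_isP (p_of_bnd hK hB h4 hgo hL') 0
    · obtain ⟨j, hj⟩ : ∃ j, ℓ (2 * i + 1) = j + 1 := ⟨ℓ (2 * i + 1) - 1, by omega⟩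
      rw [hj]
      exact sig_of_bnd hK hB hj hgo hL'
  refine ⟨er (orc (sysN ℓ qf S) D), fun k => ?_, fun L hL => ?_,
    fun k => ⟨fun hcol => ?_, fun hk L hL => ?_⟩, ?_⟩
  · -- the languages of the trees
    set t : ℕ := th (2 * k + 1) with ht
    have he4 : ¬ (2 * (2 * k + 1)) % 4 = 0 := by omega
    have hj : ℓ (2 * (2 * k + 1)) = k + 1 := by
      rw [hℓe _ (by omega)]
      omega
    refine ⟨{x | sval (lev S (2 * (2 * k + 1), List.replicate t true ++ x)) k
      (D.bl (2 * (2 * k + 1), List.replicate t true ++ x) (tv (sysN ℓ qf S)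
        (2 * (2 * k + 1), List.replicate t true ++ x) (orc (sysN ℓ qf S) D))) = false}, ?_, ?_⟩
    · exact sig_core he4 hj (fun x => List.replicate t true ++ x)
        (Poly.append (NPC.Poly.const _) Poly.id) (t := t) (fun x => by
          show (List.replicate t true ++ x).length = _
          rw [List.length_append, List.length_replicate]
          omega) fun x => Iff.rfl
    · rintro ⟨V, p, ⟨M, hM⟩, hx⟩
      obtain ⟨x, hgx, hx'⟩ := h3 (2 * k + 1) M p
      apply hx'
      have h5 : (fun y => ((M.out (er (orc (sysN ℓ qf S) D))) y).getD []) = V := by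
        funext y
        rw [hM y]
        rfl
      have h6 : (2 * k + 1) / 2 = k := by omega
      rw [h5, h6, ← hx x]
      have h7 : tv (sysN ℓ qf S) (2 * (2 * k + 1), List.replicate t true ++ x)
          (orc (sysN ℓ qf S) D) = D.fr (nam (2 * (2 * k + 1)) (List.replicate t true ++ x)) :=
        tv_even hK D (c := (2 * (2 * k + 1), List.replicate t true ++ x))
          (show 2 * (2 * k + 1) % 2 = 0 by omega)
      have h8 : ∀ b, (Bk (2 * (2 * k + 1), List.replicate t true ++ x)).good b
          (D.bl (2 * (2 * k + 1), List.replicate t true ++ x) b) := fun b => by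
        cases b
        · exact hgx.2
        · exact hgx.1
      show _ ↔ sval _ k _ = false
      rw [h7, hB.sip _ he4 k hj _ _ (h8 _)]
      cases D.fr (nam (2 * (2 * k + 1)) (List.replicate t true ++ x)) <;> simp
  · obtain ⟨i, hi⟩ := hup L hL
    exact hi.isPH
  · by_contra hk
    rw [not_le] at hk
    obtain ⟨F, hF⟩ := fam_rho D (nam (2 * (2 * k)) (List.replicate (th (2 * k)) true))
    obtain ⟨V, p, ⟨M, hM⟩, hx⟩ := hcol {x | D.fr (nam (2 * (2 * k))
      (List.replicate (th (2 * k)) true ++ x)) = true} ⟨F, fun x => by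
        have h4 := acc_of_fr hK hB hF (show 2 * (2 * k) % 4 = 0 by omega)
          (nam_append (2 * (2 * k)) (th (2 * k)) x) (hg k x hk)
        exact ⟨fun hx => h4.1 hx, fun hx => h4.2 (Bool.eq_false_iff.2 hx)⟩⟩
    obtain ⟨x, _, hx'⟩ := h3 (2 * k) M p
    apply hx'
    have h5 : (fun y => ((M.out (er (orc (sysN ℓ qf S) D))) y).getD []) = V := by
      funext y
      rw [hM y]
      rfl
    have h6 : (2 * k) / 2 = k := by omega
    rw [h5, h6]
    exact hx x
  · obtain ⟨i, hi⟩ := hup L hL
    refine sig_le hi ?_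
    exact_mod_cast (hf3 i).trans hk
  · obtain ⟨F, hF⟩ := fam_rho D []
    refine ⟨F, fun L hL => ?_⟩
    obtain ⟨V, p, k, hV, hx⟩ := hL
    by_contra hcon
    push Not at hcon
    set r : List Bool → List Bool := fun x => nam (2 * (2 * k))
      (List.replicate (th (2 * k)) true ++ x) with hr
    have hpr : Poly r := Poly.append (NPC.Poly.const _) (Poly.cons (NPC.Poly.const _)
      (Poly.append (NPC.Poly.const _) Poly.id))
    have hV' : IsFP (er (orc (sysN ℓ qf S) D)) (fun y => V (rep k r y)) :=
      hV.precomp (poly_repl hpr k)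
    obtain ⟨M, hM⟩ := hV'
    obtain ⟨x, hgx, hx'⟩ := h3 (2 * k) M (p.comp (Polynomial.X +
      Polynomial.C (2 * (2 * k) + 1 + th (2 * k))))
    apply hx'
    have h5 : (fun y => ((M.out (er (orc (sysN ℓ qf S) D))) y).getD []) =
        fun y => V (rep k r y) := by
      funext y
      rw [hM y]
      rfl
    have h6 : (p.comp (Polynomial.X + Polynomial.C (2 * (2 * k) + 1 + th (2 * k)))).eval x.length =
        p.eval (r x).length := by
      rw [hr]
      simp only [Polynomial.eval_comp, Polynomial.eval_add, Polynomial.eval_X, Polynomial.eval_C]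
      rw [nam_len, List.length_append, List.length_replicate]
      congr 1
      omega
    have h10 : (2 * k) / 2 = k := by omega
    rw [h5, h6, h10, quant_rep V r _ k k 0 true x (by omega)]
    show _ ↔ Quant (p.eval (r x).length) V k true (r x)
    rw [← hx (r x)]
    have h7 := acc_of_fr hK hB hF (show 2 * (2 * k) % 4 = 0 by omega) (x := r x)
      (y := List.replicate (th (2 * k)) true ++ x) (by rw [List.nil_append]) hgx
    obtain ⟨h8, h9⟩ := hcon (r x)
    constructor
    · intro h10
      exact h8 (h7.1 h10)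
    · intro h10
      by_contra h11
      exact h9 (h7.2 (Bool.eq_false_iff.2 h11)) h10

end Pool.Agent.H9x.SN
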